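import Pool.Agent.K6.H31.WS.Sob

/-!
# Mollification of a continuous map with an integrable weak gradient
-/

set_option autoImplicit false

open Set Filter Topology MeasureTheory Metric
open scoped ContDiff ENNReal NNReal Convolution

namespace Pool.Agent.K6.H31.WS

variable {E : Type*} [NormedAddCommGroup E] [InnerProductSpace ℝ E] [FiniteDimensional ℝ E]
  [MeasurableSpace E] [BorelSpace E]

theorem exists_mollified {D : Set E} (hD : IsOpen D) {g : E → E} {G : E → E →L[ℝ] E}
    (hg : ContinuousOn g D) (hG : IntegrableOn G D) (hw : HasWeakGrad D g G)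
    {K : Set E} (hK : IsCompact K) (hKD : K ⊆ D) {ε : ℝ} (hε : 0 < ε) :
    ∃ h : E → E, ContDiff ℝ 1 h ∧ (∀ x ∈ K, ‖h x - g x‖ ≤ ε) ∧
      ∫⁻ x in K, ‖fderiv ℝ h x‖ₑ ≤ ∫⁻ x in D, ‖G x‖ₑ := by
  obtain ⟨K', hK', hKK', hK'D⟩ := exists_compact_between hK hD hKD
  -- the radius
  obtain ⟨δ₁, hδ₁, hδ₁K⟩ := hK.exists_cthickening_subset_open isOpen_interior hKK'
  have huc : UniformContinuousOn g K' := hK'.uniformContinuousOn_of_continuous (hg.mono hK'D)
  obtain ⟨δ₂, hδ₂, hδ₂g⟩ := Metric.uniformContinuousOn_iff_le.1 huc ε hε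
  set δ := min δ₁ δ₂ with hδ
  have hδ0 : 0 < δ := lt_min hδ₁ hδ₂
  have hball : ∀ x ∈ K, ∀ z, dist z x ≤ δ → z ∈ K' := by
    intro x hx z hz
    apply interior_subset
    apply hδ₁K
    exact mem_cthickening_of_dist_le z x δ₁ K hx (hz.trans (min_le_left _ _))
  let φ : ContDiffBump (0 : E) := ⟨δ / 2, δ, half_pos hδ0, half_lt_self hδ0⟩
  set ψ : E → ℝ := φ.normed volume with hψ
  have hψ0 : ∀ x, 0 ≤ ψ x := fun x => φ.nonneg_normed x
  have hψd : ContDiff ℝ ∞ ψ := φ.contDiff_normed
  have hψc : HasCompactSupport ψ := φ.hasCompactSupport_normed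
  have hψi : Integrable ψ := φ.integrable_normed
  have hψs : ∀ x, x ∉ closedBall (0 : E) δ → ψ x = 0 := by
    intro x hx
    have h1 : tsupport ψ = closedBall (0 : E) δ := φ.tsupport_normed_eq
    exact image_eq_zero_of_notMem_tsupport (by rw [h1]; exact hx)
  have hdψs : ∀ x, x ∉ closedBall (0 : E) δ → fderiv ℝ ψ x = 0 := by
    intro x hx
    have h1 : tsupport ψ = closedBall (0 : E) δ := φ.tsupport_normed_eq
    by_contra h2
    exact hx (h1 ▸ support_fderiv_subset ℝ (f := ψ) h2)
  set gt : E → E := K'.indicator g with hgt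
  have hgti : Integrable gt := by
    rw [hgt, integrable_indicator_iff hK'.measurableSet]
    exact (hg.mono hK'D).integrableOn_compact hK'
  set L : E →L[ℝ] ℝ →L[ℝ] E := (ContinuousLinearMap.lsmul ℝ ℝ).flip with hL
  set h : E → E := gt ⋆[L, volume] ψ with hh
  have hhx : ∀ x, h x = ∫ t, ψ (x - t) • gt t := fun x => rfl
  have hder : ∀ x, HasFDerivAt h ((gt ⋆[L.precompR E, volume] fderiv ℝ ψ) x) x := fun x =>
    hψc.hasFDerivAt_convolution_right L hgti.locallyIntegrable (hψd.of_le (by simp)) x
  refine ⟨h, ?_, ?_, ?_⟩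
  · exact hψc.contDiff_convolution_right (n := 1) L hgti.locallyIntegrable (hψd.of_le (by simp))
  · intro x hx
    have h1 : ∫ t, ψ (x - t) • g x = g x := by
      rw [integral_sub_left_eq_self (fun t => ψ t • g x) volume x]
      exact φ.integral_normed_smul (μ := volume) (g x)
    have hint : Integrable fun t => ψ (x - t) := hψi.comp_sub_left x
    have hI1 : Integrable fun t => ψ (x - t) • gt t := by
      obtain ⟨M, hM⟩ : ∃ M, ∀ x, ‖ψ x‖ ≤ M := hψc.exists_bound_of_continuous hψd.continuous
      exact hgti.bdd_smul M (hψd.continuous.comp (continuous_const.sub continuous_id)).aestronglyMeasurable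
        (Eventually.of_forall fun t => hM _)
    have hI2 : Integrable fun t => ψ (x - t) • g x := hint.smul_const _
    have h2 : h x - g x = ∫ t, (ψ (x - t) • gt t - ψ (x - t) • g x) := by
      rw [integral_sub hI1 hI2, h1, hhx]
    rw [h2]
    calc ‖∫ t, (ψ (x - t) • gt t - ψ (x - t) • g x)‖
        ≤ ∫ t, ‖ψ (x - t) • gt t - ψ (x - t) • g x‖ := norm_integral_le_integral_norm _
      _ ≤ ∫ t, ψ (x - t) * ε := by
          apply integral_mono_of_nonneg
          · exact Eventually.of_forall fun t => norm_nonneg _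
          · exact hint.mul_const _
          · refine Eventually.of_forall fun t => ?_
            show ‖ψ (x - t) • gt t - ψ (x - t) • g x‖ ≤ ψ (x - t) * ε
            by_cases ht : x - t ∈ closedBall (0 : E) δ
            · have hdist : dist t x ≤ δ := by
                rw [mem_closedBall_zero_iff] at ht
                rw [dist_comm, dist_eq_norm]
                exact ht
              have htK := hball x hx t hdist
              rw [← smul_sub, norm_smul, Real.norm_eq_abs, abs_of_nonneg (hψ0 _), hgt,
                indicator_of_mem htK]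
              apply mul_le_mul_of_nonneg_left _ (hψ0 _)
              rw [← dist_eq_norm]
              exact hδ₂g t htK x (interior_subset (hKK' hx)) (hdist.trans (min_le_right _ _))
            · rw [hψs _ ht]
              simp
      _ = ε := by
          rw [integral_mul_const, integral_sub_left_eq_self ψ volume x, hψ, φ.integral_normed,
            one_mul]
  · -- the gradient
    have hgrad : ∀ x ∈ K, ∀ v, fderiv ℝ h x v = ∫ t in D, ψ (x - t) • G t v := by
      intro x hx v
      set Ψ : E → ℝ := fun t => ψ (x - t) with hΨ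
      have hΨd : ContDiff ℝ ∞ Ψ := hψd.comp (contDiff_const.sub contDiff_id)
      have hΨs : tsupport Ψ ⊆ closedBall x δ := by
        apply closure_minimal _ isClosed_closedBall
        intro t ht
        by_contra h2
        apply ht
        show ψ (x - t) = 0
        apply hψs
        rw [mem_closedBall_zero_iff]
        rw [mem_closedBall, dist_comm, dist_eq_norm] at h2
        exact h2
      have hΨc : HasCompactSupport Ψ :=
        (isCompact_closedBall x δ).of_isClosed_subset (isClosed_tsupport _) hΨs
      have hΨD : tsupport Ψ ⊆ D := fun t ht => hK'D (hball x hx t (hΨs ht))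
      have h1 := hw Ψ hΨd hΨc hΨD v
      have hdΨ : ∀ t, fderiv ℝ Ψ t v = - fderiv ℝ ψ (x - t) v := by
        intro t
        have h2 : HasFDerivAt Ψ ((fderiv ℝ ψ (x - t)).comp (-(ContinuousLinearMap.id ℝ E))) t := by
          have h3 : HasFDerivAt (fun t : E => x - t) (-(ContinuousLinearMap.id ℝ E)) t :=
            (hasFDerivAt_id t).const_sub x
          exact ((hψd.differentiable (by simp)).differentiableAt.hasFDerivAt).comp t h3
        rw [h2.fderiv]
        simp
      rw [(hder x).fderiv]
      have hce : ConvolutionExistsAt gt (fderiv ℝ ψ) x (L.precompR E) volume :=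
        (hψc.fderiv ℝ).convolutionExists_right (L.precompR E) hgti.locallyIntegrable
          (hψd.continuous_fderiv (by simp)) x
      have h2 : ((gt ⋆[L.precompR E, volume] fderiv ℝ ψ) x) v =
          ∫ t, (fderiv ℝ ψ (x - t) v) • gt t := by
        rw [convolution_def, ContinuousLinearMap.integral_apply hce]
        rfl
      rw [h2]
      have h3 : ∫ t, (fderiv ℝ ψ (x - t) v) • gt t = ∫ t in D, (fderiv ℝ ψ (x - t) v) • g t := by
        have h4 : ∀ t, t ∉ K' → fderiv ℝ ψ (x - t) = 0 := by
          intro t ht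
          apply hdψs
          intro h5
          apply ht
          apply hball x hx
          rw [dist_comm, dist_eq_norm]
          rwa [mem_closedBall_zero_iff] at h5
        have e := setIntegral_eq_integral_of_forall_compl_eq_zero (s := D)
          (f := fun t => (fderiv ℝ ψ (x - t) v) • gt t) (μ := (volume : Measure E))
          (fun t ht => by
            show (fderiv ℝ ψ (x - t) v) • gt t = 0
            rw [h4 t (fun h => ht (hK'D h))]; simp)
        rw [← e]
        refine integral_congr_ae (Eventually.of_forall fun t => ?_)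
        show (fderiv ℝ ψ (x - t) v) • gt t = (fderiv ℝ ψ (x - t) v) • g t
        by_cases ht : t ∈ K'
        · rw [hgt, indicator_of_mem ht]
        · rw [h4 t ht]; simp
      rw [h3]
      have h4 : ∫ t in D, (fderiv ℝ Ψ t v) • g t = - ∫ t in D, (fderiv ℝ ψ (x - t) v) • g t := by
        rw [← integral_neg]
        refine integral_congr_ae (Eventually.of_forall fun t => ?_)
        show (fderiv ℝ Ψ t v) • g t = - ((fderiv ℝ ψ (x - t) v) • g t)
        rw [hdΨ, neg_smul]
      rw [h4, neg_inj] at h1
      exact h1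
    have hnorm : ∀ x ∈ K, ‖fderiv ℝ h x‖ₑ ≤ ∫⁻ t in D, ‖ψ (x - t)‖ₑ * ‖G t‖ₑ := by
      intro x hx
      have hint : Integrable (fun t => ψ (x - t) • G t) (volume.restrict D) := by
        obtain ⟨M, hM⟩ : ∃ M, ∀ x, ‖ψ x‖ ≤ M := hψc.exists_bound_of_continuous hψd.continuous
        exact hG.bdd_smul M
          (hψd.continuous.comp (continuous_const.sub continuous_id)).aestronglyMeasurable
          (Eventually.of_forall fun t => hM _)
      have h1 : fderiv ℝ h x = ∫ t in D, ψ (x - t) • G t := by
        ext v
        rw [hgrad x hx v, ContinuousLinearMap.integral_apply hint]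
        rfl
      rw [h1]
      refine (enorm_integral_le_lintegral_enorm _).trans (le_of_eq ?_)
      refine lintegral_congr fun t => ?_
      rw [enorm_smul]
    have hψm : Measurable ψ := hψd.continuous.measurable
    have hGae : AEMeasurable (fun t => ‖G t‖ₑ) (volume.restrict D) := hG.aestronglyMeasurable.enorm
    calc ∫⁻ x in K, ‖fderiv ℝ h x‖ₑ ≤ ∫⁻ x in K, ∫⁻ t in D, ‖ψ (x - t)‖ₑ * ‖G t‖ₑ :=
          setLIntegral_mono' hK.measurableSet hnorm
      _ ≤ ∫⁻ x, ∫⁻ t in D, ‖ψ (x - t)‖ₑ * ‖G t‖ₑ := setLIntegral_le_lintegral _ _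
      _ = ∫⁻ t in D, ∫⁻ x, ‖ψ (x - t)‖ₑ * ‖G t‖ₑ := by
          rw [lintegral_lintegral_swap]
          have h1 : Measurable fun p : E × E => ψ (p.1 - p.2) :=
            hψm.comp (measurable_fst.sub measurable_snd)
          have h2 : AEMeasurable (fun p : E × E => ‖G p.2‖ₑ) (volume.prod (volume.restrict D)) :=
            hGae.comp_snd
          exact h1.enorm.aemeasurable.mul h2
      _ = ∫⁻ t in D, ‖G t‖ₑ := by
          refine lintegral_congr fun t => ?_
          have hm : Measurable fun x : E => ‖ψ (x - t)‖ₑ :=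
            (hψm.comp (measurable_id.sub_const t)).enorm
          rw [lintegral_mul_const _ hm]
          have h1 : ∫⁻ x, ‖ψ (x - t)‖ₑ = 1 := by
            rw [lintegral_sub_right_eq_self (fun x => ‖ψ x‖ₑ) t]
            have h2 : ∫⁻ x, ‖ψ x‖ₑ = ENNReal.ofReal (∫ x, ψ x) := by
              rw [ofReal_integral_eq_lintegral_ofReal hψi (Eventually.of_forall hψ0)]
              refine lintegral_congr fun x => ?_
              rw [Real.enorm_eq_ofReal (hψ0 x)]
            rw [h2, hψ, φ.integral_normed, ENNReal.ofReal_one]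
          rw [h1, one_mul]

end Pool.Agent.K6.H31.WS
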