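import Pool.Agent.K6.H31.WS.Geo2
import Pool.Agent.K6.H31.WS.Moll

/-!
# Coordinates on `ℝ^{m+3}` and rotations in the first two coordinates
-/

set_option autoImplicit false

open Set Filter Topology MeasureTheory Metric
open scoped ContDiff ENNReal NNReal

namespace Pool.Agent.K6.H31.WS

/-- `ℝ^{m+3}` -/
abbrev EE (m : ℕ) := EuclideanSpace ℝ (Fin (m + 3))

/-- the product model -/
abbrev XX (m : ℕ) := ℂ × ℝ × (Fin m → ℝ)

variable {m : ℕ}

/-- coordinates -/
noncomputable def iotaLin (m : ℕ) : EE m ≃ₗ[ℝ] XX m where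
  toFun x := (⟨x 0, x 1⟩, x 2, fun i => x i.succ.succ.succ)
  invFun p := WithLp.toLp 2 (Fin.cons p.1.re (Fin.cons p.1.im (Fin.cons p.2.1 p.2.2)) :
    Fin (m + 3) → ℝ)
  map_add' x y := by
    refine Prod.ext (Complex.ext rfl rfl) (Prod.ext rfl rfl)
  map_smul' c x := by
    refine Prod.ext (Complex.ext ?_ ?_) (Prod.ext rfl rfl)
    · simp
    · simp
  left_inv x := by
    ext i
    refine Fin.cases ?_ (fun i => ?_) i
    · rfl
    · refine Fin.cases ?_ (fun i => ?_) i
      · rfl
      · refine Fin.cases ?_ (fun i => ?_) i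
        · rfl
        · rfl
  right_inv p := by
    refine Prod.ext (Complex.ext rfl rfl) (Prod.ext rfl ?_)
    funext i
    rfl

/-- coordinates, as a continuous linear equivalence -/
noncomputable def iota (m : ℕ) : EE m ≃L[ℝ] XX m := (iotaLin m).toContinuousLinearEquiv

theorem norm_sq_eq (x : EE m) :
    ‖x‖ ^ 2 = ‖(iota m x).1‖ ^ 2 + (iota m x).2.1 ^ 2 + ∑ i, ((iota m x).2.2 i) ^ 2 := by
  rw [EuclideanSpace.norm_sq_eq, Fin.sum_univ_succ, Fin.sum_univ_succ, Fin.sum_univ_succ,
    Complex.sq_norm, Complex.normSq_apply]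
  simp only [Real.norm_eq_abs, sq_abs]
  show x 0 ^ 2 + (x 1 ^ 2 + (x 2 ^ 2 + ∑ i : Fin m, x i.succ.succ.succ ^ 2)) =
    (x 0 * x 0 + x 1 * x 1) + x 2 ^ 2 + ∑ i : Fin m, x i.succ.succ.succ ^ 2
  ring

/-- the rotation by the angle `θ` in the plane of the first two coordinates -/
noncomputable def rot (m : ℕ) (θ : ℝ) (x : EE m) : EE m :=
  (iota m).symm (Complex.exp (θ * Complex.I) * (iota m x).1, (iota m x).2.1, (iota m x).2.2)

theorem iota_rot (θ : ℝ) (x : EE m) : iota m (rot m θ x) =
    (Complex.exp (θ * Complex.I) * (iota m x).1, (iota m x).2.1, (iota m x).2.2) := by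
  unfold rot
  rw [ContinuousLinearEquiv.apply_symm_apply]

theorem rot_rot (θ θ' : ℝ) (x : EE m) : rot m θ (rot m θ' x) = rot m (θ + θ') x := by
  apply (iota m).injective
  rw [iota_rot, iota_rot, iota_rot]
  refine Prod.ext ?_ rfl
  show Complex.exp (θ * Complex.I) * (Complex.exp (θ' * Complex.I) * _) = _
  rw [← mul_assoc, ← Complex.exp_add]
  congr 2
  push_cast
  ring

theorem rot_zero (x : EE m) : rot m 0 x = x := by
  apply (iota m).injective
  rw [iota_rot]
  refine Prod.ext ?_ rfl
  simp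

theorem rot_two_pi (θ : ℝ) (x : EE m) : rot m (θ + 2 * Real.pi) x = rot m θ x := by
  apply (iota m).injective
  rw [iota_rot, iota_rot]
  refine Prod.ext ?_ rfl
  show Complex.exp ((θ + 2 * Real.pi : ℝ) * Complex.I) * _ = Complex.exp (θ * Complex.I) * _
  have : ((θ + 2 * Real.pi : ℝ) : ℂ) * Complex.I = θ * Complex.I + 2 * Real.pi * Complex.I := by
    push_cast
    ring
  rw [this, Complex.exp_periodic]

theorem norm_rot (θ : ℝ) (x : EE m) : ‖rot m θ x‖ = ‖x‖ := by
  have h1 : ‖rot m θ x‖ ^ 2 = ‖x‖ ^ 2 := by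
    rw [norm_sq_eq, norm_sq_eq x, iota_rot]
    simp only
    rw [norm_mul, Complex.norm_exp_ofReal_mul_I, one_mul]
  exact (pow_left_inj₀ (norm_nonneg _) (norm_nonneg _) two_ne_zero).1 h1

/-- the rotation as a linear isometry -/
noncomputable def rotLI (m : ℕ) (θ : ℝ) : EE m →ₗᵢ[ℝ] EE m where
  toFun := rot m θ
  map_add' x y := by
    apply (iota m).injective
    rw [map_add, iota_rot, iota_rot, iota_rot, map_add]
    refine Prod.ext ?_ rfl
    show Complex.exp (θ * Complex.I) * ((iota m x).1 + (iota m y).1) = _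
    rw [mul_add]
    rfl
  map_smul' c x := by
    apply (iota m).injective
    simp only [RingHom.id_apply]
    rw [map_smul, iota_rot, iota_rot, map_smul]
    refine Prod.ext ?_ rfl
    show Complex.exp (θ * Complex.I) * (c • (iota m x).1) = c • (_ * _)
    rw [mul_smul_comm]
  norm_map' x := norm_rot θ x

theorem rot_measurePreserving (θ : ℝ) :
    MeasurePreserving (rot m θ) (volume : Measure (EE m)) volume :=
  ((rotLI m θ).toLinearIsometryEquiv rfl).measurePreserving

theorem rot_continuous : Continuous fun p : ℝ × EE m => rot m p.1 p.2 := by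
  unfold rot
  apply (iota m).symm.continuous.comp
  have h1 : Continuous fun p : ℝ × EE m => iota m p.2 := (iota m).continuous.comp continuous_snd
  have h2 : Continuous fun p : ℝ × EE m => Complex.exp (p.1 * Complex.I) := by fun_prop
  exact (h2.mul (continuous_fst.comp h1)).prodMk
    ((continuous_fst.comp (continuous_snd.comp h1)).prodMk
      (continuous_snd.comp (continuous_snd.comp h1)))

/-- the derivative of the rotation in the angle -/
noncomputable def rot' (m : ℕ) (θ : ℝ) (x : EE m) : EE m :=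
  (iota m).symm (Complex.I * (Complex.exp (θ * Complex.I) * (iota m x).1), 0, 0)

theorem hasDerivAt_rot (θ : ℝ) (x : EE m) :
    HasDerivAt (fun θ => rot m θ x) (rot' m θ x) θ := by
  have h1 : HasDerivAt (fun θ : ℝ => Complex.exp (θ * Complex.I))
      (Complex.exp (θ * Complex.I) * Complex.I) θ := by
    have h2 : HasDerivAt (fun θ : ℝ => (θ : ℂ) * Complex.I) (1 * Complex.I) θ :=
      (Complex.ofRealCLM.hasDerivAt (x := θ)).mul_const _
    have h3 := h2.cexp
    rwa [one_mul] at h3
  have h2 : HasDerivAt (fun θ : ℝ => ((Complex.exp (θ * Complex.I) * (iota m x).1,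
      (iota m x).2.1, (iota m x).2.2) : XX m))
      (Complex.exp (θ * Complex.I) * Complex.I * (iota m x).1, 0, 0) θ :=
    (h1.mul_const _).prodMk ((hasDerivAt_const _ _).prodMk (hasDerivAt_const _ _))
  have h3 := ((iota m).symm : XX m →L[ℝ] EE m).hasFDerivAt.comp_hasDerivAt θ h2
  have h4 : Complex.I * (Complex.exp (θ * Complex.I) * (iota m x).1) =
      Complex.exp (θ * Complex.I) * Complex.I * (iota m x).1 := by ring
  unfold rot'
  rw [h4]
  exact h3

theorem norm_rot' (θ : ℝ) (x : EE m) : ‖rot' m θ x‖ ≤ ‖x‖ := by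
  have h1 : ‖rot' m θ x‖ ^ 2 ≤ ‖x‖ ^ 2 := by
    rw [norm_sq_eq, norm_sq_eq x]
    unfold rot'
    rw [ContinuousLinearEquiv.apply_symm_apply]
    simp only
    rw [norm_mul, norm_mul, Complex.norm_exp_ofReal_mul_I, Complex.norm_I, one_mul, one_mul]
    have h2 : 0 ≤ ∑ i, ((iota m x).2.2 i) ^ 2 := Finset.sum_nonneg fun i _ => sq_nonneg _
    have h3 : ∑ i : Fin m, ((0 : Fin m → ℝ) i) ^ 2 = 0 := by simp
    rw [h3]
    nlinarith [sq_nonneg (iota m x).2.1]
  exact abs_le_of_sq_le_sq' h1 (norm_nonneg _) |>.2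

theorem rot'_continuous : Continuous fun p : ℝ × EE m => rot' m p.1 p.2 := by
  unfold rot'
  apply (iota m).symm.continuous.comp
  have h1 : Continuous fun p : ℝ × EE m => iota m p.2 := (iota m).continuous.comp continuous_snd
  have h2 : Continuous fun p : ℝ × EE m => Complex.exp (p.1 * Complex.I) := by fun_prop
  exact (continuous_const.mul (h2.mul (continuous_fst.comp h1))).prodMk continuous_const

end Pool.Agent.K6.H31.WS
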