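import Mathlib

/-!
# Weak and strong Sobolev closures of homeomorphisms

Let `Ω, Ω' ⊆ ℝⁿ` be open. The Sobolev space `W^{1,p}(Ω, ℝⁿ)` is described by pairs `(f, G)` of a map
and its weak gradient.
-/

set_option autoImplicit false

open Set Filter Topology MeasureTheory
open scoped ContDiff ENNReal

namespace Pool.Agent.K6.H31.WS

variable {n : ℕ}

/-- `G` is the weak gradient of `f` on `Ω`: `∫_Ω ∂_v φ f = - ∫_Ω φ G v` for all smooth `φ` with compact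
support in `Ω` and all vectors `v`. -/
def IsWeakGradient (Ω : Set (EuclideanSpace ℝ (Fin n)))
    (f : EuclideanSpace ℝ (Fin n) → EuclideanSpace ℝ (Fin n))
    (G : EuclideanSpace ℝ (Fin n) → EuclideanSpace ℝ (Fin n) →L[ℝ] EuclideanSpace ℝ (Fin n)) : Prop :=
  ∀ φ : EuclideanSpace ℝ (Fin n) → ℝ, ContDiff ℝ ∞ φ → HasCompactSupport φ → tsupport φ ⊆ Ω →
    ∀ v, ∫ x in Ω, (fderiv ℝ φ x v) • f x = - ∫ x in Ω, φ x • G x v

/-- `f ∈ W^{1,p}(Ω, ℝⁿ)`, with weak gradient `G`. -/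
def InSobolev (p : ℝ≥0∞) (Ω : Set (EuclideanSpace ℝ (Fin n)))
    (f : EuclideanSpace ℝ (Fin n) → EuclideanSpace ℝ (Fin n))
    (G : EuclideanSpace ℝ (Fin n) → EuclideanSpace ℝ (Fin n) →L[ℝ] EuclideanSpace ℝ (Fin n)) : Prop :=
  MemLp f p (volume.restrict Ω) ∧ MemLp G p (volume.restrict Ω) ∧ IsWeakGradient Ω f G

/-- `f` is a homeomorphism of `Ω` onto `Ω'`. -/
def IsHomeoOnto (Ω Ω' : Set (EuclideanSpace ℝ (Fin n)))
    (f : EuclideanSpace ℝ (Fin n) → EuclideanSpace ℝ (Fin n)) : Prop :=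
  ∃ e : Ω ≃ₜ Ω', ∀ x : Ω, (e x : EuclideanSpace ℝ (Fin n)) = f x

/-- `f_k → f` weakly in `W^{1,p}(Ω, ℝⁿ)`; `G_k` and `G` are the weak gradients: `f_k` and all `G_k v`
converge weakly in `L^p`, that is, when tested with the functions in `L^q(Ω)`, `1/p + 1/q = 1`. -/
def TendstoWeakly (p : ℝ≥0∞) (Ω : Set (EuclideanSpace ℝ (Fin n)))
    (fk : ℕ → EuclideanSpace ℝ (Fin n) → EuclideanSpace ℝ (Fin n))
    (Gk : ℕ → EuclideanSpace ℝ (Fin n) → EuclideanSpace ℝ (Fin n) →L[ℝ] EuclideanSpace ℝ (Fin n))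
    (f : EuclideanSpace ℝ (Fin n) → EuclideanSpace ℝ (Fin n))
    (G : EuclideanSpace ℝ (Fin n) → EuclideanSpace ℝ (Fin n) →L[ℝ] EuclideanSpace ℝ (Fin n)) : Prop :=
  ∀ q : ℝ≥0∞, p⁻¹ + q⁻¹ = 1 → ∀ h : EuclideanSpace ℝ (Fin n) → ℝ, MemLp h q (volume.restrict Ω) →
    Tendsto (fun k => ∫ x in Ω, h x • fk k x) atTop (𝓝 (∫ x in Ω, h x • f x)) ∧
    ∀ v, Tendsto (fun k => ∫ x in Ω, h x • Gk k x v) atTop (𝓝 (∫ x in Ω, h x • G x v))

/-- `f_k → f` in the norm of `W^{1,p}(Ω, ℝⁿ)`; `G_k` and `G` are the weak gradients. -/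
def TendstoStrongly (p : ℝ≥0∞) (Ω : Set (EuclideanSpace ℝ (Fin n)))
    (fk : ℕ → EuclideanSpace ℝ (Fin n) → EuclideanSpace ℝ (Fin n))
    (Gk : ℕ → EuclideanSpace ℝ (Fin n) → EuclideanSpace ℝ (Fin n) →L[ℝ] EuclideanSpace ℝ (Fin n))
    (f : EuclideanSpace ℝ (Fin n) → EuclideanSpace ℝ (Fin n))
    (G : EuclideanSpace ℝ (Fin n) → EuclideanSpace ℝ (Fin n) →L[ℝ] EuclideanSpace ℝ (Fin n)) : Prop :=
  Tendsto (fun k => eLpNorm (fun x => fk k x - f x) p (volume.restrict Ω)) atTop (𝓝 0) ∧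
    Tendsto (fun k => eLpNorm (fun x => Gk k x - G x) p (volume.restrict Ω)) atTop (𝓝 0)

/-- The weak closure of the homeomorphisms of `Ω` onto `Ω'`: the maps `f ∈ W^{1,p}(Ω, ℝⁿ)` with values
in the closure of `Ω'` almost everywhere which are weak limits in `W^{1,p}` of homeomorphisms of `Ω` onto
`Ω'` (that lie in `W^{1,p}`). -/
def weakClosure (p : ℝ≥0∞) (Ω Ω' : Set (EuclideanSpace ℝ (Fin n))) :
    Set (EuclideanSpace ℝ (Fin n) → EuclideanSpace ℝ (Fin n)) :=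
  {f | ∃ G, InSobolev p Ω f G ∧ (∀ᵐ x ∂(volume.restrict Ω), f x ∈ closure Ω') ∧
    ∃ fk Gk, (∀ k, InSobolev p Ω (fk k) (Gk k) ∧ IsHomeoOnto Ω Ω' (fk k)) ∧
      TendstoWeakly p Ω fk Gk f G}

/-- The strong closure of the homeomorphisms of `Ω` onto `Ω'`. -/
def strongClosure (p : ℝ≥0∞) (Ω Ω' : Set (EuclideanSpace ℝ (Fin n))) :
    Set (EuclideanSpace ℝ (Fin n) → EuclideanSpace ℝ (Fin n)) :=
  {f | ∃ G, InSobolev p Ω f G ∧ (∀ᵐ x ∂(volume.restrict Ω), f x ∈ closure Ω') ∧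
    ∃ fk Gk, (∀ k, InSobolev p Ω (fk k) (Gk k) ∧ IsHomeoOnto Ω Ω' (fk k)) ∧
      TendstoStrongly p Ω fk Gk f G}

end Pool.Agent.K6.H31.WS
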