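import Pool.Agent.K6.H31.WS.Glue
import Pool.Agent.K6.H31.WS.Defs

/-!
# The limit map is in the weak closure but not in the strong closure
-/

set_option autoImplicit false

open Set Filter Topology MeasureTheory Metric
open scoped ContDiff ENNReal NNReal

namespace Pool.Agent.K6.H31.WS

variable {m : ℕ}

theorem Om_finite : volume (Om m) ≠ ⊤ := (Om_bounded.measure_lt_top).ne

instance : IsFiniteMeasure ((volume : Measure (EE m)).restrict (Om m)) :=
  ⟨by rw [Measure.restrict_apply_univ]; exact Om_finite.lt_top⟩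

theorem inSobolev_of {f : EE m → EE m} {C B : ℝ} (hC : 0 ≤ C)
    (h : ∀ x ∈ Om m, ∃ r > 0, ball x r ⊆ Om m ∧ ∀ y ∈ ball x r, ∀ z ∈ ball x r,
      ‖f y - f z‖ ≤ C * ‖y - z‖) (hB : ∀ x ∈ Om m, ‖f x‖ ≤ B) (p : ℝ≥0∞) :
    InSobolev p (Om m) f (fderiv ℝ f) := by
  have hlip := locallyLipschitzOn_of hC h
  refine ⟨?_, ?_, hasWeakGrad_of_locallyLipschitz Om_open hlip⟩
  · refine MemLp.of_bound (hlip.continuousOn.aestronglyMeasurable Om_open.measurableSet) B ?_
    rw [ae_restrict_iff' Om_open.measurableSet]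
    exact Eventually.of_forall hB
  · refine MemLp.of_bound (measurable_fderiv ℝ f).aestronglyMeasurable C ?_
    rw [ae_restrict_iff' Om_open.measurableSet]
    exact Eventually.of_forall fun x hx => norm_fderiv_le_of hC h hx

theorem mp_bound (k : ℕ) (x : EE m) (hx : x ∈ Om m) : ‖mp (sig k) x‖ ≤ BB m :=
  norm_le_BB (Om'_subset (hom m k ⟨x, hx⟩).2)

theorem flim_bound (x : EE m) (hx : x ∈ Om m) : ‖flim x‖ ≤ BB m :=
  le_of_tendsto (tendsto_mp hx).norm (Eventually.of_forall fun k => mp_bound k x hx)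

theorem flim_weak (p : ℝ≥0∞) : (flim : EE m → EE m) ∈ weakClosure p (Om m) (Om' m) := by
  refine ⟨fderiv ℝ flim, inSobolev_of (CL_nonneg m) (fun x hx => flim_lip_Om hx) flim_bound p, ?_,
    fun k => mp (sig k), fun k => fderiv ℝ (mp (sig k)), fun k => ⟨?_, ?_⟩, ?_⟩
  · rw [ae_restrict_iff' Om_open.measurableSet]
    exact Eventually.of_forall fun x hx => flim_mem_closure hx
  · exact inSobolev_of (CL_nonneg m) (fun x hx => mp_lip_Om k hx) (mp_bound k) p
  · exact ⟨hom m k, fun x => rfl⟩
  · intro q hq h hh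
    have hq1 : 1 ≤ q := by
      by_contra hlt
      push Not at hlt
      have h1 : 1 < q⁻¹ := by
        rw [← inv_one]
        exact ENNReal.inv_lt_inv.2 hlt
      have h2 : q⁻¹ ≤ 1 := by
        rw [← hq]
        exact le_add_self
      exact absurd h1 (not_lt.2 h2)
    have hhi : IntegrableOn h (Om m) := hh.integrable hq1
    refine ⟨?_, fun v => ?_⟩
    · refine tendsto_integral_of_dominated_convergence (fun x => ‖h x‖ * BB m) ?_ ?_ ?_ ?_
      · intro k
        exact hhi.aestronglyMeasurable.smul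
          ((mp_continuousOn_Om (sig k)).aestronglyMeasurable Om_open.measurableSet)
      · exact hhi.norm.mul_const _
      · intro k
        rw [ae_restrict_iff' Om_open.measurableSet]
        refine Eventually.of_forall fun x hx => ?_
        rw [norm_smul]
        exact mul_le_mul_of_nonneg_left (mp_bound k x hx) (norm_nonneg _)
      · rw [ae_restrict_iff' Om_open.measurableSet]
        exact Eventually.of_forall fun x hx => (tendsto_mp hx).const_smul _
    · refine tendsto_grad Om_open Om_finite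
        (hasWeakGrad_of_locallyLipschitz Om_open
          (locallyLipschitzOn_of (CL_nonneg m) fun x hx => flim_lip_Om hx))
        (fun k => hasWeakGrad_of_locallyLipschitz Om_open
          (locallyLipschitzOn_of (CL_nonneg m) fun x hx => mp_lip_Om k hx))
        (fun k => (mp_continuousOn_Om (sig k)).aestronglyMeasurable Om_open.measurableSet)
        (measurable_fderiv ℝ _).aestronglyMeasurable
        (fun k => (measurable_fderiv ℝ _).aestronglyMeasurable) mp_bound
        (fun x hx => norm_fderiv_le_of (CL_nonneg m) (fun x hx => flim_lip_Om hx) hx)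
        (fun k x hx => norm_fderiv_le_of (CL_nonneg m) (fun x hx => mp_lip_Om k hx) hx)
        (fun x hx => tendsto_mp hx) hhi v

/-- uniqueness of the weak gradient -/
theorem weakGrad_unique {n : ℕ} {Ω : Set (EuclideanSpace ℝ (Fin n))} (hΩ : IsOpen Ω)
    {f : EuclideanSpace ℝ (Fin n) → EuclideanSpace ℝ (Fin n)}
    {G G' : EuclideanSpace ℝ (Fin n) → EuclideanSpace ℝ (Fin n) →L[ℝ] EuclideanSpace ℝ (Fin n)}
    (hG : IntegrableOn G Ω) (hG' : IntegrableOn G' Ω)
    (h : IsWeakGradient Ω f G) (h' : IsWeakGradient Ω f G') :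
    ∀ᵐ x, x ∈ Ω → G x - G' x = 0 := by
  have hint : IntegrableOn (fun x => G x - G' x) Ω := hG.sub hG'
  apply hΩ.ae_eq_zero_of_integral_contDiff_smul_eq_zero hint.locallyIntegrableOn
  intro φ hφ hc hs
  have hφb : ∃ M, ∀ x, ‖φ x‖ ≤ M := hc.exists_bound_of_continuous hφ.continuous
  obtain ⟨M, hM⟩ := hφb
  have e := setIntegral_eq_integral_of_forall_compl_eq_zero (s := Ω)
    (f := fun x => φ x • (G x - G' x)) (μ := (volume : Measure (EuclideanSpace ℝ (Fin n))))
    (fun x hx => by
      show φ x • (G x - G' x) = 0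
      rw [image_eq_zero_of_notMem_tsupport (fun h => hx (hs h))]
      exact zero_smul ℝ (G x - G' x))
  have hI : ∀ {H : EuclideanSpace ℝ (Fin n) → EuclideanSpace ℝ (Fin n) →L[ℝ] EuclideanSpace ℝ (Fin n)},
      IntegrableOn H Ω → IntegrableOn (fun x => φ x • H x) Ω := fun hH =>
    Integrable.bdd_smul hH M hφ.continuous.aestronglyMeasurable (Eventually.of_forall hM)
  rw [← e]
  ext1 v
  rw [ContinuousLinearMap.integral_apply (hI hint)]
  have h1 := h φ hφ hc hs v
  have h2 := h' φ hφ hc hs v
  have h3 : ∀ {H : EuclideanSpace ℝ (Fin n) → EuclideanSpace ℝ (Fin n) →L[ℝ] EuclideanSpace ℝ (Fin n)},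
      IntegrableOn H Ω → IntegrableOn (fun x => φ x • H x v) Ω := fun hH =>
    (ContinuousLinearMap.apply ℝ (EuclideanSpace ℝ (Fin n)) v).integrable_comp (hI hH)
  have h4 : ∫ x in Ω, (φ x • (G x - G' x)) v = (∫ x in Ω, φ x • G x v) - ∫ x in Ω, φ x • G' x v := by
    rw [← integral_sub (h3 hG) (h3 hG')]
    refine integral_congr_ae (Eventually.of_forall fun x => ?_)
    show φ x • (G x v - G' x v) = _
    rw [smul_sub]
  rw [h4]
  have h5 : ∫ x in Ω, φ x • G x v = ∫ x in Ω, φ x • G' x v := by
    rw [h1] at h2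
    exact neg_injective h2
  rw [h5, sub_self]
  rfl

theorem flim_not_strong (p : ℝ≥0∞) (hp : 1 ≤ p) :
    (flim : EE m → EE m) ∉ strongClosure p (Om m) (Om' m) := by
  rintro ⟨G, ⟨-, hGp, hGw⟩, -, gk, Gk, hk, -, hlim⟩
  have hsub : P0.DE m ⊆ Om m := by
    intro x hx
    refine mem_Om.2 ⟨0, ?_⟩
    show x ∈ (par 0).DE m
    rwa [par_zero]
  have hsub' : Dk m 0 = P0.DE m := by
    unfold Dk
    rw [par_zero]
  have hGi : IntegrableOn G (Om m) := hGp.integrable hp
  -- the gradient of the limit vanishes on `D_0`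
  have hzero : ∀ᵐ x, x ∈ P0.DE m → G x = 0 := by
    obtain ⟨-, h1, h2⟩ := inSobolev_of (CL_nonneg m) (fun x hx => flim_lip_Om hx)
      (flim_bound (m := m)) 1
    have h3 := weakGrad_unique Om_open hGi (h1.integrable le_rfl) hGw h2
    filter_upwards [h3] with x hx hxD
    have h4 := hx (hsub hxD)
    have h5 : fderiv ℝ flim x = 0 := by
      have h6 : flim =ᶠ[𝓝 x] fun _ => bb m := by
        filter_upwards [P0_good.isOpen_DE.mem_nhds hxD] with y hy
        exact flim_zero (hsub' ▸ hy)
      rw [h6.fderiv_eq]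
      simp
    rwa [h5, sub_zero] at h4
  obtain ⟨B, hB⟩ : ∃ B : ℝ≥0, ∀ x ∈ KK m, ‖x‖ ≤ B := by
    obtain ⟨B, hB⟩ := (KK_compact m).isBounded.exists_norm_le
    exact ⟨⟨|B|, abs_nonneg _⟩, fun x hx => (hB x hx).trans (le_abs_self B)⟩
  -- the lower bound
  have hlow : ∀ k, ENNReal.ofReal 4 * volume (KK m) ≤
      cst m B * ENNReal.ofReal (2 * Real.pi) * ∫⁻ x in P0.DE m, ‖Gk k x‖ₑ := by
    intro k
    obtain ⟨⟨-, hGkp, hGkw⟩, e, he⟩ := hk k
    obtain ⟨j, hj1, hj2, hj3⟩ := exists_component e
    have hGki : IntegrableOn (Gk k) (Om m) := hGkp.integrable hp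
    have hgc : ContinuousOn (gk k) (Om m) := by
      rw [continuousOn_iff_continuous_domRestrict]
      have : (Om m).domRestrict (gk k) = fun x => (e x : EE m) := by
        funext x
        exact (he x).symm
      rw [this]
      exact continuous_subtype_val.comp e.continuous
    classical
    let g' : EE m → EE m := fun y => if h : y ∈ Om' m then (e.symm ⟨y, h⟩).1 else 0
    have hg'c : ContinuousOn g' (Om' m) := by
      rw [continuousOn_iff_continuous_domRestrict]
      have : (Om' m).domRestrict g' = fun y => (e.symm y : EE m) := by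
        funext y
        show g' y.1 = _
        simp only [g']
        rw [dif_pos y.2]
      rw [this]
      exact continuous_subtype_val.comp e.symm.continuous
    have hsubj : Dk m j ⊆ Om' m := fun x hx => mem_Om'.2 ⟨j, hj1, hx⟩
    have hw : HasWeakGrad (P0.DE m) (gk k) (Gk k) := by
      intro φ hφ hc hs v
      have h1 := hGkw φ hφ hc (hs.trans hsub) v
      have h2 : ∀ x, x ∉ P0.DE m → fderiv ℝ φ x v = 0 := by
        intro x hx
        have : fderiv ℝ φ x = 0 := by
          by_contra h4
          exact hx (hs (support_fderiv_subset ℝ (f := φ) h4))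
        rw [this]
        rfl
      have h3 : ∀ x, x ∉ P0.DE m → φ x = 0 := fun x hx =>
        image_eq_zero_of_notMem_tsupport fun h => hx (hs h)
      have e1 : ∫ x in Om m, (fderiv ℝ φ x v) • gk k x = ∫ x in P0.DE m, (fderiv ℝ φ x v) • gk k x := by
        apply setIntegral_eq_of_subset_of_forall_sdiff_eq_zero Om_open.measurableSet hsub
        intro x hx
        rw [h2 x hx.2, zero_smul]
      have e2 : ∫ x in Om m, φ x • Gk k x v = ∫ x in P0.DE m, φ x • Gk k x v := by
        apply setIntegral_eq_of_subset_of_forall_sdiff_eq_zero Om_open.measurableSet hsub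
        intro x hx
        rw [h3 x hx.2, zero_smul]
      rw [e1, e2] at h1
      exact h1
    refine energy_lower (par_good j) (g := gk k) (g' := g') (G := Gk k) (hgc.mono hsub) ?_
      (hg'c.mono hsubj) ?_ ?_ (hGki.mono_set hsub) hw hB
    · intro x hx
      have h1 := hj2 ⟨x, hsub hx⟩ (by rw [hsub']; exact hx)
      rw [he] at h1
      exact h1
    · intro y hy
      have h1 := hj3 ⟨y, hsubj hy⟩ hy
      show g' y ∈ P0.DE m
      simp only [g']
      rw [dif_pos (hsubj hy), ← hsub']
      exact h1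
    · intro x hx
      have h1 : gk k x = (e ⟨x, hsub hx⟩ : EE m) := (he ⟨x, hsub hx⟩).symm
      show g' (gk k x) = x
      rw [h1]
      simp only [g']
      rw [dif_pos (e ⟨x, hsub hx⟩).2]
      simp
  -- the energies on `D_0` tend to zero
  have hup : ∀ k, ∫⁻ x in P0.DE m, ‖Gk k x‖ₑ ≤ eLpNorm (fun x => Gk k x - G x) p
      (volume.restrict (Om m)) * (volume.restrict (Om m) : Measure (EE m)) univ ^
        (1 / (1 : ℝ≥0∞).toReal - 1 / p.toReal) := by
    intro k
    obtain ⟨⟨-, hGkp, -⟩, -⟩ := hk k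
    calc ∫⁻ x in P0.DE m, ‖Gk k x‖ₑ = ∫⁻ x in P0.DE m, ‖Gk k x - G x‖ₑ := by
          apply lintegral_congr_ae
          have h1 : ∀ᵐ x ∂(volume.restrict (P0.DE m)), G x = 0 := by
            rw [ae_restrict_iff' P0_good.isOpen_DE.measurableSet]
            exact hzero
          filter_upwards [h1] with x hx
          rw [hx, sub_zero]
      _ ≤ ∫⁻ x in Om m, ‖Gk k x - G x‖ₑ := lintegral_mono_set hsub
      _ = eLpNorm (fun x => Gk k x - G x) 1 (volume.restrict (Om m)) := by
          rw [eLpNorm_one_eq_lintegral_enorm]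
      _ ≤ _ := eLpNorm_le_eLpNorm_mul_rpow_measure_univ hp
          (hGkp.aestronglyMeasurable.sub hGp.aestronglyMeasurable)
  have hfin : (volume.restrict (Om m) : Measure (EE m)) univ ^
      (1 / (1 : ℝ≥0∞).toReal - 1 / p.toReal) ≠ ⊤ := by
    apply ENNReal.rpow_ne_top_of_nonneg
    · simp only [ENNReal.toReal_one, div_one, sub_nonneg]
      by_cases hpt : p = ⊤
      · rw [hpt]; simp
      · rw [div_le_one (by
          have := ENNReal.toReal_mono hpt hp
          rw [ENNReal.toReal_one] at this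
          linarith)]
        have := ENNReal.toReal_mono hpt hp
        rwa [ENNReal.toReal_one] at this
    · rw [Measure.restrict_apply_univ]
      exact Om_finite
  have hcst : cst m B * ENNReal.ofReal (2 * Real.pi) ≠ ⊤ := by
    apply ENNReal.mul_ne_top _ ENNReal.ofReal_ne_top
    unfold cst
    exact ENNReal.mul_ne_top enorm_ne_top ENNReal.coe_ne_top
  have hT : Tendsto (fun k => cst m B * ENNReal.ofReal (2 * Real.pi) *
      (eLpNorm (fun x => Gk k x - G x) p (volume.restrict (Om m)) *
        (volume.restrict (Om m) : Measure (EE m)) univ ^ (1 / (1 : ℝ≥0∞).toReal - 1 / p.toReal)))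
      atTop (𝓝 0) := by
    have h1 := ENNReal.Tendsto.mul_const (b := (volume.restrict (Om m) : Measure (EE m)) univ ^
      (1 / (1 : ℝ≥0∞).toReal - 1 / p.toReal)) hlim (Or.inr hfin)
    have h2 := ENNReal.Tendsto.const_mul (a := cst m B * ENNReal.ofReal (2 * Real.pi)) h1
      (Or.inr hcst)
    rw [zero_mul, mul_zero] at h2
    exact h2
  have hge : ENNReal.ofReal 4 * volume (KK m) ≤ 0 := by
    refine ge_of_tendsto hT (Eventually.of_forall fun k => ?_)
    refine (hlow k).trans ?_
    gcongr
    exact hup k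
  have hpos : 0 < ENNReal.ofReal 4 * volume (KK m) :=
    ENNReal.mul_pos (by norm_num) (KK_volume_pos m).ne'
  exact absurd hge (not_le.2 hpos)

end Pool.Agent.K6.H31.WS
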