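import Mathlib

/-!
# Loops in the punctured plane

`HasLog γ`: the `2π`-periodic function `γ : ℝ → ℂ` has a continuous `2π`-periodic logarithm.
This is invariant under homotopies through non-vanishing periodic functions.
-/

set_option autoImplicit false

open Set Filter Topology

namespace Pool.Agent.K6.H31.WS

/-- a continuous `2π`-periodic logarithm -/
def HasLog (γ : ℝ → ℂ) : Prop :=
  ∃ L : ℝ → ℂ, Continuous L ∧ (∀ θ, L (θ + 2 * Real.pi) = L θ) ∧ ∀ θ, Complex.exp (L θ) = γ θ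

theorem exists_log {X : Type*} [NormedAddCommGroup X] [NormedSpace ℝ X] {g : X → ℂ}
    (hg : Continuous g) (h0 : ∀ x, g x ≠ 0) :
    ∃ L : X → ℂ, Continuous L ∧ ∀ x, Complex.exp (L x) = g x := by
  have hsc : IsSimplyConnected (univ : Set X) := by
    have : ContractibleSpace (univ : Set X) := convex_univ.contractibleSpace ⟨0, trivial⟩
    show SimplyConnectedSpace (univ : Set X)
    infer_instance
  obtain ⟨L, hL, hL'⟩ := Complex.exists_continuousOn_eqOn_exp_comp hsc isOpen_univ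
    hg.continuousOn (by simpa using fun x => h0 x)
  exact ⟨L, continuousOn_univ.1 hL, fun x => hL' (mem_univ x)⟩

/-- A continuous function with values in `2πi ℤ` on a connected space is constant. -/
theorem const_of_exp_eq_one {X : Type*} [TopologicalSpace X] [PreconnectedSpace X] {d : X → ℂ}
    (hd : Continuous d) (h : ∀ x, Complex.exp (d x) = 1) (x y : X) : d x = d y := by
  have h1 : ∀ x, ∃ n : ℤ, d x = n * (2 * Real.pi * Complex.I) := fun x =>
    Complex.exp_eq_one_iff.1 (h x)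
  choose n hn using h1
  have h2 : Continuous (fun x => (n x : ℝ)) := by
    have : (fun x => (n x : ℝ)) = fun x => (d x).im / (2 * Real.pi) := by
      funext x
      rw [hn x]
      simp
    rw [this]
    exact (Complex.continuous_im.comp hd).div_const _
  have h3 : Continuous n := by
    have h4 : Topology.IsInducing (fun m : ℤ => (m : ℝ)) := Int.isClosedEmbedding_coe_real.isInducing
    exact h4.continuous_iff.2 h2
  have h5 : n x = n y := PreconnectedSpace.constant inferInstance h3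
  rw [hn x, hn y, h5]

theorem HasLog.of_homotopy {H : ℝ × ℝ → ℂ} (hH : Continuous H) (h0 : ∀ x, H x ≠ 0)
    (hper : ∀ s θ, H (s, θ + 2 * Real.pi) = H (s, θ)) (h1 : HasLog fun θ => H (1, θ)) :
    HasLog fun θ => H (0, θ) := by
  obtain ⟨L, hL, hL'⟩ := exists_log hH h0
  obtain ⟨L₁, hL₁, hL₁p, hL₁'⟩ := h1
  have hd : ∀ x y : ℝ × ℝ, L (x.1, x.2 + 2 * Real.pi) - L x = L (y.1, y.2 + 2 * Real.pi) - L y := by
    intro x y
    refine const_of_exp_eq_one (d := fun x : ℝ × ℝ => L (x.1, x.2 + 2 * Real.pi) - L x) (by fun_prop)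
      (fun x => ?_) x y
    rw [Complex.exp_sub, hL', hL', hper]
    exact div_self (h0 _)
  have he : ∀ θ θ' : ℝ, L (1, θ) - L₁ θ = L (1, θ') - L₁ θ' := by
    intro θ θ'
    refine const_of_exp_eq_one (d := fun θ : ℝ => L (1, θ) - L₁ θ) (by fun_prop)
      (fun θ => ?_) θ θ'
    rw [Complex.exp_sub, hL', hL₁']
    exact div_self (h0 _)
  refine ⟨fun θ => L (0, θ), by fun_prop, fun θ => ?_, fun θ => hL' _⟩
  have h2 := he (0 + 2 * Real.pi) 0
  rw [hL₁p] at h2
  have h3 := hd (0, θ) (1, 0)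
  simp only at h3
  have h4 : L (1, 0 + 2 * Real.pi) - L (1, 0) = 0 := by
    linear_combination h2
  rw [h4] at h3
  linear_combination h3

theorem HasLog.const {c : ℂ} (hc : c ≠ 0) : HasLog fun _ => c :=
  ⟨fun _ => Complex.log c, continuous_const, fun _ => rfl, fun _ => Complex.exp_log hc⟩

theorem not_hasLog_exp {c : ℂ} (hc : c ≠ 0) :
    ¬ HasLog fun θ : ℝ => Complex.exp (θ * Complex.I) * c := by
  rintro ⟨L, hL, hLp, hL'⟩
  have h1 : ∀ θ θ' : ℝ, L θ - θ * Complex.I = L θ' - θ' * Complex.I := by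
    intro θ θ'
    have h2 : ∀ x y : ℝ, (L x - x * Complex.I - Complex.log c) =
        (L y - y * Complex.I - Complex.log c) := by
      intro x y
      refine const_of_exp_eq_one (d := fun x : ℝ => L x - x * Complex.I - Complex.log c)
        (by fun_prop) (fun x => ?_) x y
      rw [Complex.exp_sub, Complex.exp_sub, hL', Complex.exp_log hc]
      field_simp [Complex.exp_ne_zero]
    linear_combination h2 θ θ'
  have h3 := h1 (0 + 2 * Real.pi) 0
  rw [hLp] at h3
  have h4 : (Real.pi : ℂ) * Complex.I = 0 := by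
    push_cast at h3
    linear_combination - (1 / 2 : ℂ) * h3
  simp [Real.pi_ne_zero] at h4

theorem hasDerivAt_log_of_exp {L w : ℝ → ℂ} (hL : Continuous L) (h : ∀ θ, Complex.exp (L θ) = w θ)
    {w' : ℂ} {θ : ℝ} (hw : HasDerivAt w w' θ) : HasDerivAt L (w' / w θ) θ := by
  have h0 : ∀ t, w t ≠ 0 := fun t => by rw [← h t]; exact Complex.exp_ne_zero _
  have h1 : L =ᶠ[𝓝 θ] fun t => L θ + Complex.log (w t / w θ) := by
    have h2 : ∀ᶠ t in 𝓝 θ, ‖L t - L θ‖ < Real.pi := by
      have h3 : Tendsto (fun t => ‖L t - L θ‖) (𝓝 θ) (𝓝 ‖L θ - L θ‖) :=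
        ((hL.sub continuous_const).norm).tendsto θ
      rw [sub_self, norm_zero] at h3
      exact h3.eventually (gt_mem_nhds Real.pi_pos)
    filter_upwards [h2] with t ht
    rw [← h t, ← h θ, ← Complex.exp_sub, Complex.log_exp]
    · ring
    · have := (abs_lt.1 ((Complex.abs_im_le_norm _).trans_lt ht)).1
      exact this
    · exact (abs_lt.1 ((Complex.abs_im_le_norm _).trans_lt ht)).2.le
  refine HasDerivAt.congr_of_eventuallyEq ?_ h1
  have h4 : HasDerivAt (fun t => w t / w θ) (w' / w θ) θ := hw.div_const _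
  have h5 := (h4.clog_real (by rw [div_self (h0 θ)]; exact Complex.one_mem_slitPlane)).const_add (L θ)
  rw [div_self (h0 θ), div_one] at h5
  exact h5

/-- A short loop has a periodic `N`-th root with a logarithm. -/
theorem hasLog_of_short {u w w' : ℝ → ℂ} {N : ℕ} {r : ℝ} (hN : 0 < N) (hr : 0 < r)
    (hu : Continuous u) (hu1 : ∀ θ, ‖u θ‖ = 1) (hup : ∀ θ, u (θ + 2 * Real.pi) = u θ)
    (hw : ∀ θ, HasDerivAt w (w' θ) θ) (hw' : Continuous w') (hwr : ∀ θ, r ≤ ‖w θ‖)
    (hwp : ∀ θ, w (θ + 2 * Real.pi) = w θ)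
    (hwu : ∀ θ, w θ = ‖w θ‖ * u θ ^ N)
    (hint : ∫ θ in (0 : ℝ)..2 * Real.pi, ‖w' θ‖ < 2 * Real.pi * N * r) : HasLog u := by
  have hu0 : ∀ θ, u θ ≠ 0 := fun θ => by
    rw [← norm_pos_iff, hu1]; exact one_pos
  have hw0 : ∀ θ, 0 < ‖w θ‖ := fun θ => hr.trans_le (hwr θ)
  have hw0' : ∀ θ, w θ ≠ 0 := fun θ => norm_pos_iff.1 (hw0 θ)
  have hwc : Continuous w := continuous_iff_continuousAt.2 fun θ => (hw θ).continuousAt
  obtain ⟨L, hL, hL'⟩ := exists_log hu hu0
  have hd : ∀ θ θ' : ℝ, L (θ + 2 * Real.pi) - L θ = L (θ' + 2 * Real.pi) - L θ' := by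
    intro θ θ'
    refine const_of_exp_eq_one (d := fun θ : ℝ => L (θ + 2 * Real.pi) - L θ) (by fun_prop)
      (fun θ => ?_) θ θ'
    rw [Complex.exp_sub, hL', hL', hup]
    exact div_self (hu0 _)
  set Λ : ℝ → ℂ := fun θ => Real.log ‖w θ‖ + N * L θ with hΛ
  have hΛc : Continuous Λ := by
    have h1 : Continuous fun θ => Real.log ‖w θ‖ := hwc.norm.log fun θ => (hw0 θ).ne'
    exact (Complex.continuous_ofReal.comp h1).add (continuous_const.mul hL)
  have hΛe : ∀ θ, Complex.exp (Λ θ) = w θ := by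
    intro θ
    rw [hΛ]
    simp only
    rw [Complex.exp_add, Complex.exp_nat_mul, hL', ← Complex.ofReal_exp, Real.exp_log (hw0 θ)]
    exact (hwu θ).symm
  have hΛd : ∀ θ, HasDerivAt Λ (w' θ / w θ) θ := fun θ => hasDerivAt_log_of_exp hΛc hΛe (hw θ)
  have hcont : Continuous fun θ => w' θ / w θ := hw'.div hwc hw0'
  have h1 : ∫ θ in (0 : ℝ)..2 * Real.pi, w' θ / w θ = Λ (2 * Real.pi) - Λ 0 :=
    intervalIntegral.integral_eq_sub_of_hasDerivAt (fun θ _ => hΛd θ)
      (hcont.intervalIntegrable _ _)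
  have h2 : Λ (2 * Real.pi) - Λ 0 = N * (L (0 + 2 * Real.pi) - L 0) := by
    have h3 := hwp 0
    rw [zero_add] at h3
    rw [hΛ]
    simp only
    rw [h3, zero_add]
    ring
  obtain ⟨k, hk⟩ : ∃ k : ℤ, L (0 + 2 * Real.pi) - L 0 = k * (2 * Real.pi * Complex.I) := by
    apply Complex.exp_eq_one_iff.1
    rw [Complex.exp_sub, hL', hL', hup]
    exact div_self (hu0 _)
  have h3 : ‖Λ (2 * Real.pi) - Λ 0‖ < 2 * Real.pi * N := by
    rw [← h1]
    calc ‖∫ θ in (0 : ℝ)..2 * Real.pi, w' θ / w θ‖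
        ≤ ∫ θ in (0 : ℝ)..2 * Real.pi, ‖w' θ / w θ‖ :=
          intervalIntegral.norm_integral_le_integral_norm (by positivity)
      _ ≤ ∫ θ in (0 : ℝ)..2 * Real.pi, ‖w' θ‖ / r := by
          apply intervalIntegral.integral_mono_on (by positivity)
            (hcont.norm.intervalIntegrable _ _) ((hw'.norm.div_const r).intervalIntegrable _ _)
          intro θ _
          rw [norm_div]
          exact div_le_div_of_nonneg_left (norm_nonneg _) hr (hwr θ)
      _ = (∫ θ in (0 : ℝ)..2 * Real.pi, ‖w' θ‖) / r := by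
          rw [intervalIntegral.integral_div]
      _ < 2 * Real.pi * N := by
          rw [div_lt_iff₀ hr]
          exact hint
  have hk0 : k = 0 := by
    rw [h2, hk, norm_mul, norm_mul, Complex.norm_natCast, Complex.norm_intCast, norm_mul,
      Complex.norm_I, mul_one] at h3
    have h4 : ‖(2 * Real.pi : ℂ)‖ = 2 * Real.pi := by
      rw [norm_mul, Complex.norm_two, Complex.norm_real, Real.norm_eq_abs,
        abs_of_pos Real.pi_pos]
    rw [h4] at h3
    have hNpos : (0 : ℝ) < N := by exact_mod_cast hN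
    have h5 : |(k : ℝ)| < 1 := by
      have h6 : (N : ℝ) * (2 * Real.pi) * |(k : ℝ)| < N * (2 * Real.pi) * 1 := by linarith
      exact lt_of_mul_lt_mul_left h6 (by positivity)
    have h7 : |k| < 1 := by exact_mod_cast h5
    exact Int.abs_lt_one_iff.1 h7
  refine ⟨L, hL, fun θ => ?_, hL'⟩
  have h4 := hd θ 0
  rw [hk, hk0] at h4
  have h5 : L (θ + 2 * Real.pi) - L θ = 0 := by rw [h4]; simp
  linear_combination h5

end Pool.Agent.K6.H31.WS
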