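import Mathlib

/-!
# Thin solid tori wound `N` times around an axis

`X = ℂ × ℝ × ℝ^m`, the parameter space is `T = {(u, η, y) : |u| = 1, |η| < 1, |y| < 1}` and
`P.f (u, η, y) = ((R + Re (ρ u + δ η)) u ^ N, c + Im (ρ u + δ η), δ y)`.
-/

set_option autoImplicit false

open Set Filter Topology

namespace Pool.Agent.K6.H31.WS

theorem norm_sub_le_pow {u v : ℂ} (hu : ‖u‖ = 1) (hv : ‖v‖ = 1) {N : ℕ} (hN : 0 < N)
    (h : ‖u - v‖ ≤ 2 / N) : N * ‖u - v‖ ≤ 2 * ‖u ^ N - v ^ N‖ := by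
  have hNr : (0 : ℝ) < N := by exact_mod_cast hN
  have hv0 : v ≠ 0 := by rw [← norm_pos_iff, hv]; exact one_pos
  set z := u / v with hz
  have hz1 : ‖z‖ = 1 := by rw [hz, norm_div, hu, hv, div_one]
  have h1 : ‖u - v‖ = ‖z - 1‖ := by
    have : u - v = (z - 1) * v := by rw [hz]; field_simp
    rw [this, norm_mul, hv, mul_one]
  have h2 : ‖u ^ N - v ^ N‖ = ‖z ^ N - 1‖ := by
    have : u ^ N - v ^ N = (z ^ N - 1) * v ^ N := by rw [hz, div_pow]; field_simp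
    rw [this, norm_mul, norm_pow, hv, one_pow, mul_one]
  set α := Complex.arg z with hα
  have hze : z = Complex.exp (Complex.I * α) := by
    have := Complex.norm_mul_exp_arg_mul_I z
    rw [hz1, Complex.ofReal_one, one_mul] at this
    rw [mul_comm, hα, this]
  have h3 : ‖z - 1‖ = 2 * |Real.sin (α / 2)| := by
    rw [hze, Complex.norm_exp_I_mul_ofReal_sub_one, norm_mul]
    simp
  have h4 : ‖z ^ N - 1‖ = 2 * |Real.sin (N * α / 2)| := by
    have : z ^ N = Complex.exp (Complex.I * ((N * α : ℝ) : ℂ)) := by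
      rw [hze, ← Complex.exp_nat_mul]
      congr 1
      push_cast
      ring
    rw [this, Complex.norm_exp_I_mul_ofReal_sub_one, norm_mul]
    simp
  have h5 : |α / 2| ≤ Real.pi / 2 := by
    rw [abs_div, abs_of_pos (two_pos : (0 : ℝ) < 2)]
    exact div_le_div_of_nonneg_right (Complex.abs_arg_le_pi _) (by norm_num)
  have h6 := Real.mul_abs_le_abs_sin h5
  rw [h1, h3] at h
  have hpi := Real.pi_pos
  have h7 : N * |α| ≤ Real.pi := by
    have h8 : 2 / Real.pi * |α / 2| ≤ 1 / N := by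
      refine h6.trans ?_
      have : |Real.sin (α / 2)| ≤ (2 / N) / 2 := by linarith
      refine this.trans (le_of_eq ?_)
      field_simp
    rw [abs_div, abs_of_pos (two_pos : (0 : ℝ) < 2)] at h8
    rw [le_div_iff₀ hNr] at h8
    have h9 : 2 / Real.pi * (|α| / 2) * N = N * |α| / Real.pi := by field_simp
    rw [h9, div_le_one hpi] at h8
    exact h8
  have h8 : |N * α / 2| ≤ Real.pi / 2 := by
    rw [abs_div, abs_mul, abs_of_pos (two_pos : (0 : ℝ) < 2), abs_of_pos hNr]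
    linarith
  have h9 := Real.mul_abs_le_abs_sin h8
  rw [h1, h2, h3, h4]
  have h10 : |Real.sin (α / 2)| ≤ |α / 2| := Real.abs_sin_le_abs
  rw [abs_div, abs_of_pos (two_pos : (0 : ℝ) < 2)] at h10
  rw [abs_div, abs_mul, abs_of_pos (two_pos : (0 : ℝ) < 2), abs_of_pos hNr] at h9
  have h11 : N * |α| / Real.pi ≤ |Real.sin (N * α / 2)| := by
    refine le_trans (le_of_eq ?_) h9
    field_simp
  have h12 : N * |α| / 4 ≤ |Real.sin (N * α / 2)| := by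
    refine le_trans ?_ h11
    exact div_le_div_of_nonneg_left (by positivity) hpi Real.pi_le_four
  have h13 : N * (2 * |Real.sin (α / 2)|) ≤ N * |α| := by
    apply mul_le_mul_of_nonneg_left _ hNr.le
    linarith
  linarith

theorem norm_pow_sub_pow_le {u v : ℂ} (hu : ‖u‖ = 1) (hv : ‖v‖ = 1) (N : ℕ) :
    ‖u ^ N - v ^ N‖ ≤ N * ‖u - v‖ := by
  induction N with
  | zero => simp
  | succ N ih =>
    have : u ^ (N + 1) - v ^ (N + 1) = u ^ N * (u - v) + (u ^ N - v ^ N) * v := by ring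
    rw [this]
    refine (norm_add_le _ _).trans ?_
    rw [norm_mul, norm_mul, norm_pow, hu, hv, one_pow, one_mul, mul_one]
    push_cast
    linarith

/-- parameters -/
structure Par where
  /-- number of turns -/
  N : ℕ
  /-- big radius -/
  R : ℝ
  /-- winding radius -/
  ρ : ℝ
  /-- thickness -/
  δ : ℝ
  /-- height -/
  c : ℝ

/-- admissible parameters -/
structure Par.Good (P : Par) : Prop where
  hN : 0 < P.N
  hNR : P.N * P.R = 1
  hρ : 0 ≤ P.ρ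
  hρR : P.ρ ≤ P.R / 8
  hδ : 0 < P.δ
  hδR : P.δ ≤ P.R / 8
  hc : P.N = 1 ∨ 4 * P.N * P.δ ≤ P.ρ

variable {m : ℕ}

/-- the map -/
noncomputable def Par.f (P : Par) (p : ℂ × ℂ × (Fin m → ℝ)) : ℂ × ℝ × (Fin m → ℝ) :=
  (((P.R + (P.ρ * p.1 + P.δ * p.2.1).re : ℝ) : ℂ) * p.1 ^ P.N,
    P.c + (P.ρ * p.1 + P.δ * p.2.1).im, P.δ • p.2.2)

/-- the parameter space -/
def T (m : ℕ) : Set (ℂ × ℂ × (Fin m → ℝ)) := {p | ‖p.1‖ = 1 ∧ ‖p.2.1‖ < 1 ∧ ‖p.2.2‖ < 1}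

/-- the distance used to compare the maps -/
noncomputable def q (δ : ℝ) (p p' : ℂ × ℂ × (Fin m → ℝ)) : ℝ :=
  ‖p.1 - p'.1‖ + δ * ‖p.2.1 - p'.2.1‖ + δ * ‖p.2.2 - p'.2.2‖

theorem Par.Good.R_pos {P : Par} (h : P.Good) : 0 < P.R := by
  have h1 := h.hNR
  have h2 : (0 : ℝ) < P.N := by exact_mod_cast h.hN
  by_contra h3
  push Not at h3
  nlinarith

theorem Par.Good.R_le {P : Par} (h : P.Good) : P.R ≤ 1 := by
  have h1 := h.hNR
  have h2 : (1 : ℝ) ≤ P.N := by exact_mod_cast h.hN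
  nlinarith [h.R_pos]

theorem Par.Good.zeta {P : Par} (h : P.Good) {u η : ℂ} (hu : ‖u‖ = 1) (hη : ‖η‖ < 1) :
    ‖(P.ρ : ℂ) * u + P.δ * η‖ ≤ P.ρ + P.δ := by
  refine (norm_add_le _ _).trans ?_
  rw [norm_mul, norm_mul, hu, Complex.norm_real, Complex.norm_real, Real.norm_eq_abs,
    Real.norm_eq_abs, abs_of_nonneg h.hρ, abs_of_pos h.hδ, mul_one]
  nlinarith [h.hδ]

theorem Par.Good.a_bounds {P : Par} (h : P.Good) {u η : ℂ} (hu : ‖u‖ = 1) (hη : ‖η‖ < 1) :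
    3 / 4 * P.R ≤ P.R + ((P.ρ : ℂ) * u + P.δ * η).re ∧
      P.R + ((P.ρ : ℂ) * u + P.δ * η).re ≤ 5 / 4 * P.R := by
  have h1 := (Complex.abs_re_le_norm _).trans (h.zeta hu hη)
  have h2 := abs_le.1 h1
  constructor <;> linarith [h.hρR, h.hδR, h2.1, h2.2]

theorem Par.Good.upper {P : Par} (h : P.Good) {p p' : ℂ × ℂ × (Fin m → ℝ)} (hp : p ∈ T m)
    (hp' : p' ∈ T m) : ‖P.f p - P.f p'‖ ≤ 3 * q P.δ p p' := by
  obtain ⟨u, η, y⟩ := p
  obtain ⟨u', η', y'⟩ := p'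
  obtain ⟨hu, hη, hy⟩ := hp
  obtain ⟨hu', hη', hy'⟩ := hp'
  simp only at hu hη hy hu' hη' hy'
  set ζ : ℂ := P.ρ * u + P.δ * η with hζ
  set ζ' : ℂ := P.ρ * u' + P.δ * η' with hζ'
  have hR := h.R_pos
  have hR1 := h.R_le
  have hζζ : ‖ζ - ζ'‖ ≤ ‖u - u'‖ / 8 + P.δ * ‖η - η'‖ := by
    have : ζ - ζ' = P.ρ * (u - u') + P.δ * (η - η') := by rw [hζ, hζ']; ring
    rw [this]
    refine (norm_add_le _ _).trans ?_
    rw [norm_mul, norm_mul, Complex.norm_real, Complex.norm_real, Real.norm_eq_abs,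
      Real.norm_eq_abs, abs_of_nonneg h.hρ, abs_of_pos h.hδ]
    have : P.ρ ≤ 1 / 8 := by linarith [h.hρR]
    nlinarith [norm_nonneg (u - u')]
  have hpow := norm_pow_sub_pow_le hu hu' P.N
  have hb := h.a_bounds hu hη
  rw [← hζ] at hb
  have hq0 : 0 ≤ ‖u - u'‖ := norm_nonneg _
  have hq1 : 0 ≤ P.δ * ‖η - η'‖ := mul_nonneg h.hδ.le (norm_nonneg _)
  have hq2 : 0 ≤ P.δ * ‖y - y'‖ := mul_nonneg h.hδ.le (norm_nonneg _)
  have h1 : ‖((P.R + ζ.re : ℝ) : ℂ) * u ^ P.N - ((P.R + ζ'.re : ℝ) : ℂ) * u' ^ P.N‖ ≤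
      3 * (‖u - u'‖ + P.δ * ‖η - η'‖ + P.δ * ‖y - y'‖) := by
    have h2 : ((P.R + ζ.re : ℝ) : ℂ) * u ^ P.N - ((P.R + ζ'.re : ℝ) : ℂ) * u' ^ P.N =
        ((P.R + ζ.re : ℝ) : ℂ) * (u ^ P.N - u' ^ P.N) + (((ζ - ζ').re : ℝ) : ℂ) * u' ^ P.N := by
      rw [Complex.sub_re]
      push_cast
      ring
    rw [h2]
    refine (norm_add_le _ _).trans ?_
    rw [norm_mul, norm_mul, norm_pow, hu', one_pow, mul_one, Complex.norm_real, Complex.norm_real,
      Real.norm_eq_abs, Real.norm_eq_abs, abs_of_pos (by linarith : 0 < P.R + ζ.re)]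
    have h3 : (P.R + ζ.re) * ‖u ^ P.N - u' ^ P.N‖ ≤ 5 / 4 * ‖u - u'‖ := by
      calc (P.R + ζ.re) * ‖u ^ P.N - u' ^ P.N‖ ≤ 5 / 4 * P.R * (P.N * ‖u - u'‖) :=
            mul_le_mul hb.2 hpow (norm_nonneg _) (by positivity)
        _ = 5 / 4 * ‖u - u'‖ * (P.N * P.R) := by ring
        _ = _ := by rw [h.hNR, mul_one]
    have h4 := Complex.abs_re_le_norm (ζ - ζ')
    linarith
  have h2 : ‖(P.c + ζ.im) - (P.c + ζ'.im)‖ ≤
      3 * (‖u - u'‖ + P.δ * ‖η - η'‖ + P.δ * ‖y - y'‖) := by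
    have : (P.c + ζ.im) - (P.c + ζ'.im) = (ζ - ζ').im := by rw [Complex.sub_im]; ring
    rw [this, Real.norm_eq_abs]
    linarith [Complex.abs_im_le_norm (ζ - ζ')]
  have h3 : ‖P.δ • y - P.δ • y'‖ ≤ 3 * (‖u - u'‖ + P.δ * ‖η - η'‖ + P.δ * ‖y - y'‖) := by
    rw [← smul_sub, norm_smul, Real.norm_eq_abs, abs_of_pos h.hδ]
    linarith
  exact max_le h1 (max_le h2 h3)

theorem Par.Good.lower {P : Par} (h : P.Good) {p p' : ℂ × ℂ × (Fin m → ℝ)} (hp : p ∈ T m)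
    (hp' : p' ∈ T m) (hd : P.N = 1 ∨ ‖P.f p - P.f p'‖ ≤ P.ρ / (2 * P.N)) :
    q P.δ p p' ≤ 12 * ‖P.f p - P.f p'‖ := by
  obtain ⟨u, η, y⟩ := p
  obtain ⟨u', η', y'⟩ := p'
  obtain ⟨hu, hη, hy⟩ := hp
  obtain ⟨hu', hη', hy'⟩ := hp'
  simp only at hu hη hy hu' hη' hy'
  set ζ : ℂ := P.ρ * u + P.δ * η with hζ
  set ζ' : ℂ := P.ρ * u' + P.δ * η' with hζ'
  have hR := h.R_pos
  have hR1 := h.R_le
  have hN : (0 : ℝ) < P.N := by exact_mod_cast h.hN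
  set d := ‖P.f (u, η, y) - P.f (u', η', y')‖ with hd'
  have hb := h.a_bounds hu hη
  have hb' := h.a_bounds hu' hη'
  rw [← hζ] at hb
  rw [← hζ'] at hb'
  have h1 : ‖((P.R + ζ.re : ℝ) : ℂ) * u ^ P.N - ((P.R + ζ'.re : ℝ) : ℂ) * u' ^ P.N‖ ≤ d :=
    le_max_left _ _
  have h2 : |(ζ - ζ').im| ≤ d := by
    have h3 : ‖(P.c + ζ.im) - (P.c + ζ'.im)‖ ≤ d := (le_max_left _ _).trans (le_max_right _ _)
    have : (P.c + ζ.im) - (P.c + ζ'.im) = (ζ - ζ').im := by rw [Complex.sub_im]; ring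
    rwa [this, Real.norm_eq_abs] at h3
  have h3 : P.δ * ‖y - y'‖ ≤ d := by
    have h3 : ‖P.δ • y - P.δ • y'‖ ≤ d := (le_max_right _ _).trans (le_max_right _ _)
    rwa [← smul_sub, norm_smul, Real.norm_eq_abs, abs_of_pos h.hδ] at h3
  have h4 : |(ζ - ζ').re| ≤ d := by
    have h5 := abs_norm_sub_norm_le (((P.R + ζ.re : ℝ) : ℂ) * u ^ P.N)
      (((P.R + ζ'.re : ℝ) : ℂ) * u' ^ P.N)
    rw [norm_mul, norm_mul, norm_pow, norm_pow, hu, hu', one_pow, mul_one, mul_one,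
      Complex.norm_real, Complex.norm_real, Real.norm_eq_abs, Real.norm_eq_abs,
      abs_of_pos (by linarith : 0 < P.R + ζ.re), abs_of_pos (by linarith : 0 < P.R + ζ'.re)] at h5
    have h6 : P.R + ζ.re - (P.R + ζ'.re) = (ζ - ζ').re := by rw [Complex.sub_re]; ring
    rw [h6] at h5
    exact h5.trans h1
  have h5 : ‖ζ - ζ'‖ ≤ 2 * d := by
    refine (Complex.norm_le_abs_re_add_abs_im _).trans ?_
    linarith
  have hclose : ‖u - u'‖ ≤ 2 / P.N := by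
    by_cases hN1 : P.N = 1
    · rw [hN1]
      have := norm_sub_le u u'
      rw [hu, hu'] at this
      norm_num
      linarith
    · have hc := h.hc.resolve_left hN1
      have hd1 := hd.resolve_left hN1
      have hρpos : 0 < P.ρ := lt_of_lt_of_le (by have := h.hδ; positivity) hc
      have h6 : P.ρ * ‖u - u'‖ ≤ 2 * d + 2 * P.δ := by
        have h7 : (P.ρ : ℂ) * (u - u') = (ζ - ζ') - P.δ * (η - η') := by rw [hζ, hζ']; ring
        have h8 : ‖(P.ρ : ℂ) * (u - u')‖ = P.ρ * ‖u - u'‖ := by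
          rw [norm_mul, Complex.norm_real, Real.norm_eq_abs, abs_of_pos hρpos]
        rw [← h8, h7]
        refine (norm_sub_le _ _).trans ?_
        rw [norm_mul, Complex.norm_real, Real.norm_eq_abs, abs_of_pos h.hδ]
        have h9 := norm_sub_le η η'
        nlinarith [h.hδ]
      have h7 : d ≤ P.ρ / (2 * P.N) := hd1
      have h8 : P.δ ≤ P.ρ / (4 * P.N) := by
        rw [le_div_iff₀ (by positivity)]
        linarith
      have h9 : P.ρ * ‖u - u'‖ ≤ P.ρ * (2 / P.N) := by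
        refine h6.trans ?_
        have e1 : 2 * (P.ρ / (2 * P.N)) = P.ρ / P.N := by field_simp
        have e2 : 2 * (P.ρ / (4 * P.N)) = P.ρ / P.N / 2 := by field_simp; norm_num
        have e3 : P.ρ * (2 / P.N) = 2 * (P.ρ / P.N) := by field_simp
        rw [e3]
        have e4 : 0 ≤ P.ρ / P.N := by positivity
        linarith
      exact le_of_mul_le_mul_left h9 hρpos
  have h6 := norm_sub_le_pow hu hu' h.hN hclose
  have h7 : 3 / 4 * P.R * ‖u ^ P.N - u' ^ P.N‖ ≤ 2 * d := by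
    have h8 : ((P.R + ζ.re : ℝ) : ℂ) * (u ^ P.N - u' ^ P.N) =
        (((P.R + ζ.re : ℝ) : ℂ) * u ^ P.N - ((P.R + ζ'.re : ℝ) : ℂ) * u' ^ P.N) -
          (((ζ - ζ').re : ℝ) : ℂ) * u' ^ P.N := by
      rw [Complex.sub_re]
      push_cast
      ring
    have h9 : ‖((P.R + ζ.re : ℝ) : ℂ) * (u ^ P.N - u' ^ P.N)‖ ≤ 2 * d := by
      rw [h8]
      refine (norm_sub_le _ _).trans ?_
      rw [norm_mul, norm_pow, hu', one_pow, mul_one, Complex.norm_real, Real.norm_eq_abs]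
      linarith
    rw [norm_mul, Complex.norm_real, Real.norm_eq_abs,
      abs_of_pos (by linarith : 0 < P.R + ζ.re)] at h9
    refine le_trans ?_ h9
    exact mul_le_mul_of_nonneg_right hb.1 (norm_nonneg _)
  have h8 : ‖u - u'‖ ≤ 16 / 3 * d := by
    have h9 : P.R * (P.N * ‖u - u'‖) ≤ P.R * (2 * ‖u ^ P.N - u' ^ P.N‖) :=
      mul_le_mul_of_nonneg_left h6 hR.le
    have h10 : P.R * (P.N * ‖u - u'‖) = ‖u - u'‖ := by
      rw [← mul_assoc, mul_comm P.R, h.hNR, one_mul]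
    rw [h10] at h9
    linarith
  have h9 : P.δ * ‖η - η'‖ ≤ 3 * d := by
    have h10 : (P.δ : ℂ) * (η - η') = (ζ - ζ') - P.ρ * (u - u') := by rw [hζ, hζ']; ring
    have h11 : ‖(P.δ : ℂ) * (η - η')‖ = P.δ * ‖η - η'‖ := by
      rw [norm_mul, Complex.norm_real, Real.norm_eq_abs, abs_of_pos h.hδ]
    rw [← h11, h10]
    refine (norm_sub_le _ _).trans ?_
    rw [norm_mul, Complex.norm_real, Real.norm_eq_abs, abs_of_nonneg h.hρ]
    have : P.ρ ≤ 1 / 8 := by linarith [h.hρR]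
    nlinarith [norm_nonneg (u - u'), h.hρ]
  have hd0 : 0 ≤ d := norm_nonneg _
  show ‖u - u'‖ + P.δ * ‖η - η'‖ + P.δ * ‖y - y'‖ ≤ 12 * d
  linarith

theorem q_mono {δ δ' : ℝ} (h : δ ≤ δ') (p p' : ℂ × ℂ × (Fin m → ℝ)) : q δ p p' ≤ q δ' p p' := by
  unfold q
  have h1 := mul_le_mul_of_nonneg_right h (norm_nonneg (p.2.1 - p'.2.1))
  have h2 := mul_le_mul_of_nonneg_right h (norm_nonneg (p.2.2 - p'.2.2))
  linarith

/-- comparison of two of the maps -/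
theorem compare {P Q : Par} (hP : P.Good) (hQ : Q.Good) (hδ : Q.δ ≤ P.δ)
    {p p' : ℂ × ℂ × (Fin m → ℝ)} (hp : p ∈ T m) (hp' : p' ∈ T m)
    (hd : P.N = 1 ∨ ‖P.f p - P.f p'‖ ≤ P.ρ / (2 * P.N)) :
    ‖Q.f p - Q.f p'‖ ≤ 36 * ‖P.f p - P.f p'‖ := by
  have h1 := hQ.upper hp hp'
  have h2 := q_mono hδ p p'
  have h3 := hP.lower hp hp' hd
  linarith

end Pool.Agent.K6.H31.WS
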