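import Pool.Agent.K6.H31.WS.Geo
import Pool.Agent.K6.H31.WS.Loops

/-!
# Thin solid tori: topology

`P.D` is the image of the parameter space; it is open and connected, and the parametrisation is a
homeomorphism. Short loops in `P.D` are trivial.
-/

set_option autoImplicit false

open Set Filter Topology

namespace Pool.Agent.K6.H31.WS

variable {m : ℕ}

/-- the solid torus -/
def Par.D (P : Par) (m : ℕ) : Set (ℂ × ℝ × (Fin m → ℝ)) := P.f '' T m

/-- a threshold -/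
noncomputable def Par.κ (P : Par) : ℝ := if P.N = 1 then 1 else P.ρ / (2 * P.N)

theorem Par.Good.κ_pos {P : Par} (h : P.Good) : 0 < P.κ := by
  unfold Par.κ
  split_ifs with h1
  · exact one_pos
  · have hc := h.hc.resolve_left h1
    have hN : (0 : ℝ) < P.N := by exact_mod_cast h.hN
    have hδ := h.hδ
    have : 0 < P.ρ := lt_of_lt_of_le (by positivity) hc
    positivity

theorem Par.Good.lower' {P : Par} (h : P.Good) {p p' : ℂ × ℂ × (Fin m → ℝ)} (hp : p ∈ T m)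
    (hp' : p' ∈ T m) (hd : ‖P.f p - P.f p'‖ ≤ P.κ) :
    q P.δ p p' ≤ 12 * ‖P.f p - P.f p'‖ := by
  apply h.lower hp hp'
  unfold Par.κ at hd
  split_ifs at hd with h1
  · exact Or.inl h1
  · exact Or.inr hd

theorem norm_sub_le_q {δ : ℝ} (hδ : 0 < δ) (hδ1 : δ ≤ 1) (p p' : ℂ × ℂ × (Fin m → ℝ)) :
    ‖p - p'‖ ≤ q δ p p' / δ := by
  unfold q
  have h0 : 0 ≤ ‖p.1 - p'.1‖ := norm_nonneg _
  have h1 : 0 ≤ ‖p.2.1 - p'.2.1‖ := norm_nonneg _
  have h2 : 0 ≤ ‖p.2.2 - p'.2.2‖ := norm_nonneg _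
  refine max_le ?_ (max_le ?_ ?_)
  · rw [le_div_iff₀ hδ]
    show ‖p.1 - p'.1‖ * δ ≤ _
    nlinarith
  · rw [le_div_iff₀ hδ]
    show ‖p.2.1 - p'.2.1‖ * δ ≤ _
    nlinarith
  · rw [le_div_iff₀ hδ]
    show ‖p.2.2 - p'.2.2‖ * δ ≤ _
    nlinarith

theorem Par.Good.δ_le {P : Par} (h : P.Good) : P.δ ≤ 1 := by
  linarith [h.hδR, h.R_le]

theorem Par.Good.injOn {P : Par} (h : P.Good) : InjOn P.f (T m) := by
  intro p hp p' hp' heq
  have h1 : ‖P.f p - P.f p'‖ = 0 := by rw [heq, sub_self, norm_zero]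
  have h2 := h.lower' hp hp' (by rw [h1]; exact h.κ_pos.le)
  rw [h1, mul_zero] at h2
  have h3 := norm_sub_le_q h.hδ h.δ_le p p'
  have h4 : ‖p - p'‖ ≤ 0 := h3.trans (div_nonpos_of_nonpos_of_nonneg h2 h.hδ.le)
  exact sub_eq_zero.1 (norm_le_zero_iff.1 h4)

/-- the inverse -/
noncomputable def Par.g (P : Par) (x : ℂ × ℝ × (Fin m → ℝ)) : ℂ × ℂ × (Fin m → ℝ) :=
  Function.invFunOn P.f (T m) x

theorem Par.g_mem {P : Par} {x : ℂ × ℝ × (Fin m → ℝ)} (hx : x ∈ P.D m) : P.g x ∈ T m :=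
  Function.invFunOn_mem hx

theorem Par.f_g {P : Par} {x : ℂ × ℝ × (Fin m → ℝ)} (hx : x ∈ P.D m) : P.f (P.g x) = x :=
  Function.invFunOn_eq hx

theorem Par.Good.g_f {P : Par} (h : P.Good) {p : ℂ × ℂ × (Fin m → ℝ)} (hp : p ∈ T m) :
    P.g (P.f p) = p :=
  h.injOn.leftInvOn_invFunOn hp

theorem Par.f_mem {P : Par} {p : ℂ × ℂ × (Fin m → ℝ)} (hp : p ∈ T m) : P.f p ∈ P.D m :=
  mem_image_of_mem _ hp

theorem Par.f_continuous (P : Par) : Continuous (P.f (m := m)) := by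
  unfold Par.f
  fun_prop

theorem Par.Good.g_continuousOn {P : Par} (h : P.Good) : ContinuousOn P.g (P.D m) := by
  intro x hx
  rw [ContinuousWithinAt, tendsto_iff_norm_sub_tendsto_zero]
  have h1 : ∀ᶠ y in 𝓝[P.D m] x, ‖P.g y - P.g x‖ ≤ 12 / P.δ * ‖y - x‖ := by
    have h2 : ∀ᶠ y in 𝓝[P.D m] x, ‖y - x‖ < P.κ := by
      have h3 : Tendsto (fun y => ‖y - x‖) (𝓝[P.D m] x) (𝓝 0) :=
        tendsto_iff_norm_sub_tendsto_zero.1 (tendsto_id.mono_left nhdsWithin_le_nhds)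
      exact h3.eventually (gt_mem_nhds h.κ_pos)
    filter_upwards [h2, self_mem_nhdsWithin] with y hy hyD
    have h3 := h.lower' (P.g_mem hyD) (P.g_mem hx) (by rw [P.f_g hyD, P.f_g hx]; exact hy.le)
    rw [P.f_g hyD, P.f_g hx] at h3
    have h4 := norm_sub_le_q h.hδ h.δ_le (P.g y) (P.g x)
    refine h4.trans ?_
    rw [div_mul_eq_mul_div]
    exact div_le_div_of_nonneg_right h3 h.hδ.le
  refine squeeze_zero' (Eventually.of_forall fun _ => norm_nonneg _) h1 ?_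
  have h3 : Tendsto (fun y => ‖y - x‖) (𝓝[P.D m] x) (𝓝 0) :=
    tendsto_iff_norm_sub_tendsto_zero.1 (tendsto_id.mono_left nhdsWithin_le_nhds)
  simpa using h3.const_mul (12 / P.δ)

theorem Par.Good.fst_eq {P : Par} (h : P.Good) {x : ℂ × ℝ × (Fin m → ℝ)} (hx : x ∈ P.D m) :
    x.1 = ‖x.1‖ * (P.g x).1 ^ P.N ∧ 3 / 4 * P.R ≤ ‖x.1‖ ∧ ‖x.1‖ ≤ 5 / 4 * P.R := by
  obtain ⟨hu, hη, hy⟩ := P.g_mem hx
  have h1 := P.f_g hx
  have h2 : x.1 = ((P.R + (P.ρ * (P.g x).1 + P.δ * (P.g x).2.1).re : ℝ) : ℂ) * (P.g x).1 ^ P.N := by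
    conv_lhs => rw [← h1]
    rfl
  have hb := h.a_bounds hu hη
  have hR := h.R_pos
  have h3 : ‖x.1‖ = P.R + (P.ρ * (P.g x).1 + P.δ * (P.g x).2.1).re := by
    rw [h2, norm_mul, norm_pow, hu, one_pow, mul_one, Complex.norm_real, Real.norm_eq_abs,
      abs_of_pos (by linarith)]
  rw [h3]
  exact ⟨h2, hb⟩

theorem Par.Good.snd_le {P : Par} (h : P.Good) {x : ℂ × ℝ × (Fin m → ℝ)} (hx : x ∈ P.D m) :
    |x.2.1 - P.c| ≤ P.R / 4 := by
  obtain ⟨hu, hη, hy⟩ := P.g_mem hx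
  have h1 := P.f_g hx
  have h2 : x.2.1 = P.c + (P.ρ * (P.g x).1 + P.δ * (P.g x).2.1).im := by
    conv_lhs => rw [← h1]
    rfl
  rw [h2, add_sub_cancel_left]
  have h3 := (Complex.abs_im_le_norm _).trans (h.zeta hu hη)
  linarith [h.hρR, h.hδR]

theorem Par.Good.trd_le {P : Par} (h : P.Good) {x : ℂ × ℝ × (Fin m → ℝ)} (hx : x ∈ P.D m) :
    ‖x.2.2‖ ≤ P.δ := by
  obtain ⟨hu, hη, hy⟩ := P.g_mem hx
  have h1 := P.f_g hx
  have h2 : x.2.2 = P.δ • (P.g x).2.2 := by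
    conv_lhs => rw [← h1]
    rfl
  rw [h2, norm_smul, Real.norm_eq_abs, abs_of_pos h.hδ]
  nlinarith [h.hδ]

theorem Par.Good.isOpen_D {P : Par} (h : P.Good) : IsOpen (P.D m) := by
  rw [isOpen_iff_mem_nhds]
  intro x₀ hx₀
  obtain ⟨hu₀, hη₀, hy₀⟩ := P.g_mem hx₀
  set u₀ := (P.g x₀).1 with hu₀'
  set η₀ := (P.g x₀).2.1 with hη₀'
  have hfg := P.f_g hx₀
  obtain ⟨hw, hw1, hw2⟩ := h.fst_eq hx₀
  rw [← hu₀'] at hw
  have hR := h.R_pos
  have hN : (0 : ℝ) < P.N := by exact_mod_cast h.hN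
  have hδ := h.hδ
  have hw0 : 0 < ‖x₀.1‖ := by linarith
  have hx₀1 : x₀.1 ≠ 0 := norm_pos_iff.1 hw0
  have hz : x₀.2.1 = P.c + (P.ρ * u₀ + P.δ * η₀).im := by
    conv_lhs => rw [← hfg]
    rfl
  have ha : ‖x₀.1‖ = P.R + (P.ρ * u₀ + P.δ * η₀).re := by
    have h2 : x₀.1 = ((P.R + (P.ρ * u₀ + P.δ * η₀).re : ℝ) : ℂ) * u₀ ^ P.N := by
      conv_lhs => rw [← hfg]
      rfl
    have hb := h.a_bounds hu₀ hη₀
    rw [h2, norm_mul, norm_pow, hu₀, one_pow, mul_one, Complex.norm_real, Real.norm_eq_abs,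
      abs_of_pos (by linarith)]
  have hyy : x₀.2.2 = P.δ • (P.g x₀).2.2 := by
    conv_lhs => rw [← hfg]
    rfl
  -- the functions
  let v : ℂ × ℝ × (Fin m → ℝ) → ℂ := fun x => (x.1 / ‖x.1‖) / u₀ ^ P.N
  let u : ℂ × ℝ × (Fin m → ℝ) → ℂ := fun x => u₀ * Complex.exp (Complex.I * (Complex.arg (v x) / P.N))
  let η : ℂ × ℝ × (Fin m → ℝ) → ℂ := fun x =>
    (((‖x.1‖ - P.R : ℝ) : ℂ) + ((x.2.1 - P.c : ℝ) : ℂ) * Complex.I - P.ρ * u x) / P.δ
  have hu00 : u₀ ≠ 0 := by rw [← norm_pos_iff, hu₀]; exact one_pos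
  have hv₀ : v x₀ = 1 := by
    show (x₀.1 / ‖x₀.1‖) / u₀ ^ P.N = 1
    have h1 : x₀.1 / ‖x₀.1‖ = u₀ ^ P.N := by
      rw [div_eq_iff (by exact_mod_cast hw0.ne')]
      rw [mul_comm]
      exact hw
    rw [h1]
    exact div_self (pow_ne_zero _ hu00)
  have hu₀v : u x₀ = u₀ := by
    show u₀ * Complex.exp (Complex.I * (Complex.arg (v x₀) / P.N)) = u₀
    rw [hv₀]
    simp
  have hη₀v : η x₀ = η₀ := by
    show (((‖x₀.1‖ - P.R : ℝ) : ℂ) + ((x₀.2.1 - P.c : ℝ) : ℂ) * Complex.I - P.ρ * u x₀) / P.δ = η₀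
    rw [hu₀v, ha, hz, div_eq_iff (by exact_mod_cast hδ.ne')]
    have : P.R + (P.ρ * u₀ + P.δ * η₀).re - P.R = (P.ρ * u₀ + P.δ * η₀).re := by ring
    rw [this]
    have : P.c + (P.ρ * u₀ + P.δ * η₀).im - P.c = (P.ρ * u₀ + P.δ * η₀).im := by ring
    rw [this, Complex.re_add_im]
    ring
  have hvc : ContinuousAt v x₀ := by
    have h1 : ContinuousAt (fun x : ℂ × ℝ × (Fin m → ℝ) => x.1 / (‖x.1‖ : ℂ)) x₀ := by
      apply ContinuousAt.div
      · exact continuous_fst.continuousAt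
      · exact (Complex.continuous_ofReal.comp continuous_fst.norm).continuousAt
      · exact_mod_cast hw0.ne'
    exact h1.div_const _
  have huc : ContinuousAt u x₀ := by
    have h1 : ContinuousAt (fun x => Complex.arg (v x)) x₀ := by
      have h2 : ContinuousAt Complex.arg (v x₀) := by
        rw [hv₀]
        exact Complex.continuousAt_arg Complex.one_mem_slitPlane
      exact ContinuousAt.comp h2 hvc
    have h3 : ContinuousAt (fun x => Complex.I * ((Complex.arg (v x) : ℂ) / P.N)) x₀ :=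
      continuousAt_const.mul ((Complex.continuous_ofReal.continuousAt.comp h1).div_const _)
    exact continuousAt_const.mul (Complex.continuous_exp.continuousAt.comp h3)
  have hηc : ContinuousAt η x₀ := by
    apply ContinuousAt.div_const
    apply ContinuousAt.sub
    · apply Continuous.continuousAt
      fun_prop
    · exact continuousAt_const.mul huc
  have e1 : ∀ᶠ x in 𝓝 x₀, ‖η x‖ < 1 := by
    have : Tendsto (fun x => ‖η x‖) (𝓝 x₀) (𝓝 ‖η x₀‖) := hηc.norm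
    rw [hη₀v] at this
    exact this.eventually (gt_mem_nhds hη₀)
  have e2 : ∀ᶠ x in 𝓝 x₀, x.1 ≠ 0 := continuous_fst.continuousAt.eventually_ne hx₀1
  have e3 : ∀ᶠ x in 𝓝 x₀, ‖(P.δ)⁻¹ • x.2.2‖ < 1 := by
    have h1 : Continuous fun x : ℂ × ℝ × (Fin m → ℝ) => ‖(P.δ)⁻¹ • x.2.2‖ := by fun_prop
    have h2 : Tendsto (fun x : ℂ × ℝ × (Fin m → ℝ) => ‖(P.δ)⁻¹ • x.2.2‖) (𝓝 x₀)
        (𝓝 ‖(P.δ)⁻¹ • x₀.2.2‖) := h1.continuousAt
    rw [hyy, smul_smul, inv_mul_cancel₀ hδ.ne', one_smul] at h2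
    exact h2.eventually (gt_mem_nhds hy₀)
  have e4 : ∀ᶠ x in 𝓝 x₀, ‖P.ρ * u x + P.δ * η x‖ < P.R := by
    have h1 : Tendsto (fun x => ‖P.ρ * u x + P.δ * η x‖) (𝓝 x₀) (𝓝 ‖P.ρ * u x₀ + P.δ * η x₀‖) :=
      ((continuousAt_const.mul huc).add (continuousAt_const.mul hηc)).norm
    refine h1.eventually (gt_mem_nhds ?_)
    rw [hu₀v, hη₀v]
    have := h.zeta hu₀ hη₀
    linarith [h.hρR, h.hδR]
  filter_upwards [e1, e2, e3, e4] with x h1 h2 h3 h4
  have hxn : (0 : ℝ) < ‖x.1‖ := norm_pos_iff.2 h2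
  have hvx : ‖v x‖ = 1 := by
    show ‖(x.1 / ‖x.1‖) / u₀ ^ P.N‖ = 1
    rw [norm_div, norm_div, norm_pow, hu₀, one_pow, div_one, Complex.norm_real, norm_norm,
      div_self hxn.ne']
  have hux : ‖u x‖ = 1 := by
    show ‖u₀ * Complex.exp (Complex.I * (Complex.arg (v x) / P.N))‖ = 1
    rw [norm_mul, hu₀, one_mul]
    have : Complex.I * ((Complex.arg (v x) : ℂ) / P.N) = ((Complex.arg (v x) / P.N : ℝ) : ℂ) * Complex.I := by
      push_cast
      ring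
    rw [this, Complex.norm_exp_ofReal_mul_I]
  have hupow : u x ^ P.N = x.1 / ‖x.1‖ := by
    show (u₀ * Complex.exp (Complex.I * (Complex.arg (v x) / P.N))) ^ P.N = x.1 / ‖x.1‖
    rw [mul_pow, ← Complex.exp_nat_mul]
    have h5 : (P.N : ℂ) * (Complex.I * ((Complex.arg (v x) : ℂ) / P.N)) =
        Complex.arg (v x) * Complex.I := by
      have : (P.N : ℂ) ≠ 0 := by exact_mod_cast hN.ne'
      field_simp
    rw [h5]
    have h6 := Complex.norm_mul_exp_arg_mul_I (v x)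
    rw [hvx, Complex.ofReal_one, one_mul] at h6
    rw [h6]
    show u₀ ^ P.N * ((x.1 / ‖x.1‖) / u₀ ^ P.N) = _
    field_simp
  refine ⟨(u x, η x, (P.δ)⁻¹ • x.2.2), ⟨hux, h1, h3⟩, ?_⟩
  have hζ : (P.ρ : ℂ) * u x + P.δ * η x =
      ((‖x.1‖ - P.R : ℝ) : ℂ) + ((x.2.1 - P.c : ℝ) : ℂ) * Complex.I := by
    show (P.ρ : ℂ) * u x + P.δ * ((((‖x.1‖ - P.R : ℝ) : ℂ) + ((x.2.1 - P.c : ℝ) : ℂ) * Complex.I -
      P.ρ * u x) / P.δ) = _
    have : (P.δ : ℂ) ≠ 0 := by exact_mod_cast hδ.ne'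
    field_simp
    ring
  have hre : ((P.ρ : ℂ) * u x + P.δ * η x).re = ‖x.1‖ - P.R := by
    rw [hζ]; simp
  have him : ((P.ρ : ℂ) * u x + P.δ * η x).im = x.2.1 - P.c := by
    rw [hζ]; simp
  show (((P.R + (P.ρ * u x + P.δ * η x).re : ℝ) : ℂ) * u x ^ P.N,
    P.c + (P.ρ * u x + P.δ * η x).im, P.δ • (P.δ)⁻¹ • x.2.2) = x
  rw [hre, him, hupow, smul_smul, mul_inv_cancel₀ hδ.ne', one_smul]
  have hxnc : (‖x.1‖ : ℂ) ≠ 0 := by exact_mod_cast hxn.ne'
  refine Prod.ext ?_ (Prod.ext ?_ rfl)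
  · show ((P.R + (‖x.1‖ - P.R) : ℝ) : ℂ) * (x.1 / ‖x.1‖) = x.1
    rw [add_sub_cancel]
    field_simp
  · show P.c + (x.2.1 - P.c) = x.2.1
    ring

theorem T_connected (m : ℕ) : IsConnected (T m) := by
  have h1 : T m = (fun p : ℝ × ℂ × (Fin m → ℝ) => (Complex.exp (p.1 * Complex.I), p.2.1, p.2.2)) ''
      (univ ×ˢ (Metric.ball 0 1 ×ˢ Metric.ball 0 1)) := by
    ext ⟨u, η, y⟩
    constructor
    · rintro ⟨hu, hη, hy⟩
      refine ⟨(Complex.arg u, η, y), ⟨trivial, ?_, ?_⟩, ?_⟩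
      · simpa using hη
      · simpa using hy
      · have := Complex.norm_mul_exp_arg_mul_I u
        simp only at hu
        rw [hu, Complex.ofReal_one, one_mul] at this
        simp only [this]
    · rintro ⟨⟨θ, η', y'⟩, ⟨-, h2, h3⟩, h4⟩
      simp only [Prod.mk.injEq] at h4
      obtain ⟨rfl, rfl, rfl⟩ := h4
      exact ⟨Complex.norm_exp_ofReal_mul_I θ, by simpa using h2, by simpa using h3⟩
  rw [h1]
  refine ⟨⟨(Complex.exp (((0 : ℝ) : ℂ) * Complex.I), 0, 0), ⟨(0, 0, 0), ⟨trivial, by simp, by simp⟩, rfl⟩⟩, ?_⟩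
  apply IsPreconnected.image
  · apply IsPreconnected.prod isPreconnected_univ
    exact ((convex_ball _ _).isPreconnected).prod ((convex_ball _ _).isPreconnected)
  · apply Continuous.continuousOn
    fun_prop

theorem Par.D_connected (P : Par) : IsConnected (P.D m) :=
  (T_connected m).image _ P.f_continuous.continuousOn

/-- A loop in `P.D` whose `u`-coordinate has a logarithm is contractible. -/
theorem Par.Good.hasLog_of_hasLog {P : Par} (h : P.Good) {β : ℝ → ℂ × ℝ × (Fin m → ℝ)}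
    (hβ : Continuous β) (hβp : ∀ θ, β (θ + 2 * Real.pi) = β θ) (hβD : ∀ θ, β θ ∈ P.D m)
    (hL : HasLog fun θ => (P.g (β θ)).1) {F : ℂ × ℝ × (Fin m → ℝ) → ℂ}
    (hF : ContinuousOn F (P.D m)) (hF0 : ∀ x ∈ P.D m, F x ≠ 0) : HasLog fun θ => F (β θ) := by
  obtain ⟨L, hLc, hLp, hLe⟩ := hL
  have hre : ∀ θ, (L θ).re = 0 := by
    intro θ
    have h1 := (P.g_mem (hβD θ)).1
    have h2 : Complex.exp (L θ) = (P.g (β θ)).1 := hLe θ
    rw [← h2, Complex.norm_exp] at h1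
    exact (Real.exp_eq_one_iff _).1 h1
  have hgc : Continuous fun θ => P.g (β θ) :=
    h.g_continuousOn.comp_continuous hβ hβD
  -- the homotopy
  let c : ℝ → ℝ := fun s => max 0 (min 1 (1 - s))
  have hc0 : ∀ s, 0 ≤ c s := fun s => le_max_left _ _
  have hc1 : ∀ s, c s ≤ 1 := fun s => max_le zero_le_one (min_le_left _ _)
  have hcc : Continuous c := by fun_prop
  let A : ℝ × ℝ → ℂ × ℂ × (Fin m → ℝ) := fun x =>
    (Complex.exp ((c x.1 : ℂ) * L x.2), (c x.1 : ℂ) * (P.g (β x.2)).2.1, c x.1 • (P.g (β x.2)).2.2)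
  have hAT : ∀ x, A x ∈ T m := by
    intro x
    obtain ⟨hu, hη, hy⟩ := P.g_mem (hβD x.2)
    refine ⟨?_, ?_, ?_⟩
    · show ‖Complex.exp ((c x.1 : ℂ) * L x.2)‖ = 1
      rw [Complex.norm_exp, Complex.re_ofReal_mul, hre, mul_zero, Real.exp_zero]
    · show ‖(c x.1 : ℂ) * (P.g (β x.2)).2.1‖ < 1
      rw [norm_mul, Complex.norm_real, Real.norm_eq_abs, abs_of_nonneg (hc0 _)]
      exact lt_of_le_of_lt (mul_le_of_le_one_left (norm_nonneg _) (hc1 _)) hη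
    · show ‖c x.1 • (P.g (β x.2)).2.2‖ < 1
      rw [norm_smul, Real.norm_eq_abs, abs_of_nonneg (hc0 _)]
      exact lt_of_le_of_lt (mul_le_of_le_one_left (norm_nonneg _) (hc1 _)) hy
  have hAc : Continuous A := by
    have h1 : Continuous fun x : ℝ × ℝ => P.g (β x.2) := hgc.comp continuous_snd
    have h2 : Continuous fun x : ℝ × ℝ => (c x.1 : ℂ) :=
      Complex.continuous_ofReal.comp (hcc.comp continuous_fst)
    refine Continuous.prodMk ?_ (Continuous.prodMk ?_ ?_)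
    · exact Complex.continuous_exp.comp (h2.mul (hLc.comp continuous_snd))
    · exact h2.mul (continuous_fst.comp (continuous_snd.comp h1))
    · exact (hcc.comp continuous_fst).smul (continuous_snd.comp (continuous_snd.comp h1))
  have hFA : Continuous fun x => F (P.f (A x)) :=
    hF.comp_continuous (P.f_continuous.comp hAc) (fun x => P.f_mem (hAT x))
  have h1 : HasLog fun θ => (fun x => F (P.f (A x))) ((1 : ℝ), θ) := by
    have hc1' : c 1 = 0 := by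
      show max 0 (min 1 (1 - 1)) = (0 : ℝ)
      norm_num
    have h2 : ∀ θ, F (P.f (A (1, θ))) = F (P.f (1, 0, 0)) := by
      intro θ
      have : A (1, θ) = (1, 0, 0) := by
        show (Complex.exp ((c 1 : ℂ) * L θ), (c 1 : ℂ) * (P.g (β θ)).2.1,
          c 1 • (P.g (β θ)).2.2) = _
        rw [hc1']
        simp
      rw [this]
    simp only [h2]
    apply HasLog.const
    apply hF0
    apply P.f_mem
    exact ⟨by simp, by simp, by simp⟩
  have h2 := HasLog.of_homotopy hFA (fun x => hF0 _ (P.f_mem (hAT x))) (fun s θ => by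
    show F (P.f (A (s, θ + 2 * Real.pi))) = F (P.f (A (s, θ)))
    have : A (s, θ + 2 * Real.pi) = A (s, θ) := by
      show (Complex.exp ((c s : ℂ) * L (θ + 2 * Real.pi)),
        (c s : ℂ) * (P.g (β (θ + 2 * Real.pi))).2.1, c s • (P.g (β (θ + 2 * Real.pi))).2.2) =
        (Complex.exp ((c s : ℂ) * L θ), (c s : ℂ) * (P.g (β θ)).2.1, c s • (P.g (β θ)).2.2)
      rw [hLp, hβp]
    rw [this]) h1
  have hc0' : c 0 = 1 := by
    show max 0 (min 1 (1 - 0)) = (1 : ℝ)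
    norm_num
  have h3 : (fun θ => (fun x => F (P.f (A x))) ((0 : ℝ), θ)) = fun θ => F (β θ) := by
    funext θ
    have h4 : A (0, θ) = P.g (β θ) := by
      show (Complex.exp ((c 0 : ℂ) * L θ), (c 0 : ℂ) * (P.g (β θ)).2.1,
          c 0 • (P.g (β θ)).2.2) = _
      rw [hc0', Complex.ofReal_one, one_mul, one_mul, one_smul, hLe]
    simp only
    rw [h4, P.f_g (hβD θ)]
  rw [h3] at h2
  exact h2

/-- Short loops in `P.D` are contractible. -/
theorem Par.Good.hasLog_of_short {P : Par} (h : P.Good) {β β' : ℝ → ℂ × ℝ × (Fin m → ℝ)}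
    (hβ : ∀ θ, HasDerivAt β (β' θ) θ) (hβ' : Continuous β')
    (hβp : ∀ θ, β (θ + 2 * Real.pi) = β θ) (hβD : ∀ θ, β θ ∈ P.D m)
    (hint : ∫ θ in (0 : ℝ)..2 * Real.pi, ‖β' θ‖ < 4) {F : ℂ × ℝ × (Fin m → ℝ) → ℂ}
    (hF : ContinuousOn F (P.D m)) (hF0 : ∀ x ∈ P.D m, F x ≠ 0) : HasLog fun θ => F (β θ) := by
  have hβc : Continuous β := continuous_iff_continuousAt.2 fun θ => (hβ θ).continuousAt
  refine h.hasLog_of_hasLog hβc hβp hβD ?_ hF hF0
  have hR := h.R_pos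
  have hgc : Continuous fun θ => P.g (β θ) := h.g_continuousOn.comp_continuous hβc hβD
  refine Pool.Agent.K6.H31.WS.hasLog_of_short (w := fun θ => (β θ).1) (w' := fun θ => (β' θ).1)
    (N := P.N) (r := 3 / 4 * P.R) h.hN (by positivity) (continuous_fst.comp hgc)
    (fun θ => (P.g_mem (hβD θ)).1) (fun θ => by rw [hβp]) (fun θ => ?_)
    (continuous_fst.comp hβ') (fun θ => (h.fst_eq (hβD θ)).2.1) (fun θ => by rw [hβp])
    (fun θ => (h.fst_eq (hβD θ)).1) ?_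
  · exact (hasFDerivAt_fst.comp_hasDerivAt θ (hβ θ))
  · calc ∫ θ in (0 : ℝ)..2 * Real.pi, ‖(β' θ).1‖ ≤ ∫ θ in (0 : ℝ)..2 * Real.pi, ‖β' θ‖ := by
          apply intervalIntegral.integral_mono_on (by positivity)
            ((continuous_fst.comp hβ').norm.intervalIntegrable _ _)
            (hβ'.norm.intervalIntegrable _ _)
          intro θ _
          exact le_max_left _ _
      _ < 4 := hint
      _ ≤ 2 * Real.pi * P.N * (3 / 4 * P.R) := by
          have h1 : 2 * Real.pi * P.N * (3 / 4 * P.R) = 3 / 2 * Real.pi * (P.N * P.R) := by ring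
          rw [h1, h.hNR]
          linarith [Real.pi_gt_three]

end Pool.Agent.K6.H31.WS
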