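import Pool.Agent.K6.H31.WS.Lower

/-!
# The open sets `Ω = ⋃_{j ≥ 0} D_j`, `Ω' = ⋃_{j ≥ 1} D_j` and the homeomorphisms `Ω → Ω'`
-/

set_option autoImplicit false

open Set Filter Topology MeasureTheory Metric
open scoped ContDiff ENNReal NNReal

namespace Pool.Agent.K6.H31.WS

variable {m : ℕ}

/-- the sequence of parameters -/
noncomputable def par (j : ℕ) : Par :=
  ⟨4 ^ j, (1 / 4) ^ j, if j = 0 then 0 else (1 / 4) ^ j / 8, (1 / 16) ^ j / 32, 2 - (1 / 4) ^ j⟩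

theorem par_zero : par 0 = P0 := by
  unfold par P0
  norm_num

theorem par_good (j : ℕ) : (par j).Good where
  hN := by
    show 0 < 4 ^ j
    positivity
  hNR := by
    show ((4 ^ j : ℕ) : ℝ) * (1 / 4) ^ j = 1
    push_cast
    rw [← mul_pow]
    norm_num
  hρ := by
    show 0 ≤ if j = 0 then 0 else (1 / 4 : ℝ) ^ j / 8
    split_ifs
    · exact le_rfl
    · positivity
  hρR := by
    show (if j = 0 then 0 else (1 / 4 : ℝ) ^ j / 8) ≤ (1 / 4 : ℝ) ^ j / 8
    split_ifs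
    · positivity
    · exact le_rfl
  hδ := by
    show 0 < (1 / 16 : ℝ) ^ j / 32
    positivity
  hδR := by
    show (1 / 16 : ℝ) ^ j / 32 ≤ (1 / 4 : ℝ) ^ j / 8
    have : (1 / 16 : ℝ) ^ j ≤ (1 / 4 : ℝ) ^ j := by
      apply pow_le_pow_left₀ <;> norm_num
    have h2 : 0 ≤ (1 / 4 : ℝ) ^ j := by positivity
    linarith
  hc := by
    by_cases h : j = 0
    · left
      subst h
      rfl
    · right
      show 4 * ((4 ^ j : ℕ) : ℝ) * ((1 / 16 : ℝ) ^ j / 32) ≤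
        (if j = 0 then 0 else (1 / 4 : ℝ) ^ j / 8)
      rw [if_neg h]
      push_cast
      have : (4 : ℝ) ^ j * (1 / 16) ^ j = (1 / 4) ^ j := by
        rw [← mul_pow]
        norm_num
      nlinarith

theorem par_δ_anti {i j : ℕ} (h : i ≤ j) : (par j).δ ≤ (par i).δ := by
  show (1 / 16 : ℝ) ^ j / 32 ≤ (1 / 16 : ℝ) ^ i / 32
  have : (1 / 16 : ℝ) ^ j ≤ (1 / 16 : ℝ) ^ i :=
    pow_le_pow_of_le_one (by norm_num) (by norm_num) h
  linarith

/-- the components -/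
def Dk (m j : ℕ) : Set (EE m) := (par j).DE m

theorem Dk_open (j : ℕ) : IsOpen (Dk m j) := (par_good j).isOpen_DE

theorem Dk_lt {i j : ℕ} (h : i < j) {x : EE m} (hi : x ∈ Dk m i) : x ∉ Dk m j := by
  intro hj
  have h1 := abs_le.1 ((par_good i).snd_le hi)
  have h2 := abs_le.1 ((par_good j).snd_le hj)
  have h3 : (1 / 4 : ℝ) ^ j ≤ (1 / 4 : ℝ) ^ (i + 1) :=
    pow_le_pow_of_le_one (by norm_num) (by norm_num) h
  have h4 : 0 < (1 / 4 : ℝ) ^ i := by positivity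
  have e1 : (par i).R = (1 / 4) ^ i := rfl
  have e2 : (par j).R = (1 / 4) ^ j := rfl
  have e3 : (par i).c = 2 - (1 / 4) ^ i := rfl
  have e4 : (par j).c = 2 - (1 / 4) ^ j := rfl
  rw [e1, e3] at h1
  rw [e2, e4] at h2
  rw [pow_succ] at h3
  linarith [h1.2, h2.1]

theorem Dk_unique {i j : ℕ} {x : EE m} (hi : x ∈ Dk m i) (hj : x ∈ Dk m j) : i = j := by
  rcases lt_trichotomy i j with h | h | h
  · exact absurd hj (Dk_lt h hi)
  · exact h
  · exact absurd hi (Dk_lt h hj)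

open Classical in
/-- the index of the component -/
noncomputable def idx (x : EE m) : ℕ := if h : ∃ j, x ∈ Dk m j then h.choose else 0

theorem idx_eq {j : ℕ} {x : EE m} (hj : x ∈ Dk m j) : idx x = j := by
  unfold idx
  have h : ∃ j, x ∈ Dk m j := ⟨j, hj⟩
  rw [dif_pos h]
  exact Dk_unique h.choose_spec hj

/-- the map which sends the component `D_j` onto the component `D_{τ j}` -/
noncomputable def mp (τ : ℕ → ℕ) (x : EE m) : EE m :=
  (iota m).symm ((par (τ (idx x))).f ((par (idx x)).g (iota m x)))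

theorem mp_eq {τ : ℕ → ℕ} {j : ℕ} {x : EE m} (hj : x ∈ Dk m j) :
    mp τ x = (iota m).symm ((par (τ j)).f ((par j).g (iota m x))) := by
  unfold mp
  rw [idx_eq hj]

theorem mp_mem {τ : ℕ → ℕ} {j : ℕ} {x : EE m} (hj : x ∈ Dk m j) : mp τ x ∈ Dk m (τ j) := by
  rw [mp_eq hj]
  show iota m ((iota m).symm _) ∈ (par (τ j)).D m
  rw [ContinuousLinearEquiv.apply_symm_apply]
  exact Par.f_mem (Par.g_mem hj)

theorem mp_mp {τ τ' : ℕ → ℕ} {j : ℕ} {x : EE m} (hj : x ∈ Dk m j) (h : τ' (τ j) = j) :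
    mp τ' (mp τ x) = x := by
  rw [mp_eq (mp_mem hj), mp_eq hj, ContinuousLinearEquiv.apply_symm_apply,
    (par_good (τ j)).g_f (Par.g_mem hj), h, Par.f_g hj, ContinuousLinearEquiv.symm_apply_apply]

theorem mp_id {τ : ℕ → ℕ} {j : ℕ} {x : EE m} (hj : x ∈ Dk m j) (h : τ j = j) : mp τ x = x := by
  rw [mp_eq hj, h, Par.f_g hj, ContinuousLinearEquiv.symm_apply_apply]

theorem mp_continuousOn (τ : ℕ → ℕ) (j : ℕ) : ContinuousOn (mp τ) (Dk m j) := by
  have h1 : ContinuousOn (fun x => (iota m).symm ((par (τ j)).f ((par j).g (iota m x)))) (Dk m j) := by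
    have h2 : ContinuousOn (fun x => (par j).g (iota m x)) (Dk m j) :=
      (par_good j).g_continuousOn.comp (iota m).continuous.continuousOn fun x hx => hx
    exact ((iota m).symm.continuous.comp (par (τ j)).f_continuous).comp_continuousOn h2
  exact h1.congr fun x hx => mp_eq hx

/-- the Lipschitz constant -/
noncomputable def CL (m : ℕ) : ℝ :=
  36 * ‖((iota m).symm : XX m →L[ℝ] EE m)‖ * ‖((iota m : EE m ≃L[ℝ] XX m) : EE m →L[ℝ] XX m)‖ + 1

theorem CL_nonneg (m : ℕ) : 0 ≤ CL m := by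
  unfold CL
  positivity

theorem mp_lip {τ : ℕ → ℕ} {j : ℕ} (h : j ≤ τ j) {x : EE m} (hx : x ∈ Dk m j) :
    ∃ r > 0, ball x r ⊆ Dk m j ∧ ∀ y ∈ ball x r, ∀ z ∈ ball x r,
      ‖mp τ y - mp τ z‖ ≤ CL m * ‖y - z‖ := by
  obtain ⟨r₁, hr₁, hb₁⟩ := Metric.isOpen_iff.1 (Dk_open (m := m) j) x hx
  set M := ‖((iota m : EE m ≃L[ℝ] XX m) : EE m →L[ℝ] XX m)‖ with hM
  have hM0 : 0 ≤ M := norm_nonneg _
  have hκ := (par_good j).κ_pos
  refine ⟨min r₁ ((par j).κ / (2 * (M + 1))), lt_min hr₁ (by positivity),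
    (ball_subset_ball (min_le_left _ _)).trans hb₁, fun y hy z hz => ?_⟩
  have hyD : y ∈ Dk m j := hb₁ (ball_subset_ball (min_le_left _ _) hy)
  have hzD : z ∈ Dk m j := hb₁ (ball_subset_ball (min_le_left _ _) hz)
  have hyz : ‖iota m y - iota m z‖ ≤ M * ‖y - z‖ := by
    rw [← map_sub]
    exact ((iota m : EE m ≃L[ℝ] XX m) : EE m →L[ℝ] XX m).le_opNorm _
  have hyz2 : ‖y - z‖ ≤ (par j).κ / (M + 1) := by
    have h1 : dist y z < (par j).κ / (2 * (M + 1)) + (par j).κ / (2 * (M + 1)) := by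
      refine (dist_triangle_right y z x).trans_lt ?_
      exact add_lt_add ((mem_ball.1 hy).trans_le (min_le_right _ _))
        ((mem_ball.1 hz).trans_le (min_le_right _ _))
    rw [dist_eq_norm] at h1
    refine h1.le.trans (le_of_eq ?_)
    field_simp
    ring
  have hyz3 : ‖iota m y - iota m z‖ ≤ (par j).κ := by
    refine hyz.trans ?_
    calc M * ‖y - z‖ ≤ (M + 1) * ((par j).κ / (M + 1)) :=
          mul_le_mul (by linarith) hyz2 (norm_nonneg _) (by positivity)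
      _ = (par j).κ := by field_simp
  have hcmp : ‖(par (τ j)).f ((par j).g (iota m y)) - (par (τ j)).f ((par j).g (iota m z))‖ ≤
      36 * ‖iota m y - iota m z‖ := by
    have h1 := compare (m := m) (par_good j) (par_good (τ j)) (par_δ_anti h)
      (p := (par j).g (iota m y)) (p' := (par j).g (iota m z)) (Par.g_mem hyD) (Par.g_mem hzD) ?_
    · rwa [Par.f_g hyD, Par.f_g hzD] at h1
    · rw [Par.f_g hyD, Par.f_g hzD]
      unfold Par.κ at hyz3
      split_ifs at hyz3 with h2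
      · exact Or.inl h2
      · exact Or.inr hyz3
  rw [mp_eq hyD, mp_eq hzD, ← map_sub]
  refine (((iota m).symm : XX m →L[ℝ] EE m).le_opNorm _).trans ?_
  have hS0 : 0 ≤ ‖((iota m).symm : XX m →L[ℝ] EE m)‖ := norm_nonneg _
  unfold CL
  rw [← hM]
  calc ‖((iota m).symm : XX m →L[ℝ] EE m)‖ *
        ‖(par (τ j)).f ((par j).g (iota m y)) - (par (τ j)).f ((par j).g (iota m z))‖
      ≤ ‖((iota m).symm : XX m →L[ℝ] EE m)‖ * (36 * (M * ‖y - z‖)) := by
        apply mul_le_mul_of_nonneg_left _ hS0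
        exact hcmp.trans (mul_le_mul_of_nonneg_left hyz (by norm_num))
    _ ≤ _ := by nlinarith [norm_nonneg (y - z)]

/-- the permutations -/
def sig (k i : ℕ) : ℕ := if i = 0 then k + 1 else if i ≤ k then i else i + 1

/-- their inverses -/
def sig' (k j : ℕ) : ℕ := if j = k + 1 then 0 else if j ≤ k then j else j - 1

theorem sig'_sig (k i : ℕ) : sig' k (sig k i) = i := by
  unfold sig' sig
  split_ifs <;> omega

theorem sig_sig' (k : ℕ) {j : ℕ} (hj : 1 ≤ j) : sig k (sig' k j) = j := by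
  unfold sig' sig
  split_ifs <;> omega

theorem le_sig (k i : ℕ) : i ≤ sig k i := by
  unfold sig
  split_ifs <;> omega

theorem one_le_sig (k i : ℕ) : 1 ≤ sig k i := by
  unfold sig
  split_ifs <;> omega

/-- the source -/
def Om (m : ℕ) : Set (EE m) := ⋃ j, Dk m j

/-- the target -/
def Om' (m : ℕ) : Set (EE m) := ⋃ j, Dk m (j + 1)

theorem Om_open : IsOpen (Om m) := isOpen_iUnion fun j => Dk_open j

theorem Om'_open : IsOpen (Om' m) := isOpen_iUnion fun j => Dk_open (j + 1)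

theorem mem_Om {x : EE m} : x ∈ Om m ↔ ∃ j, x ∈ Dk m j := mem_iUnion

theorem mem_Om' {x : EE m} : x ∈ Om' m ↔ ∃ j, 1 ≤ j ∧ x ∈ Dk m j := by
  unfold Om'
  rw [mem_iUnion]
  constructor
  · rintro ⟨j, hj⟩
    exact ⟨j + 1, by omega, hj⟩
  · rintro ⟨j, hj, hx⟩
    refine ⟨j - 1, ?_⟩
    rwa [Nat.sub_add_cancel hj]

theorem Om'_subset : Om' m ⊆ Om m := by
  intro x hx
  obtain ⟨j, -, hj⟩ := mem_Om'.1 hx
  exact mem_Om.2 ⟨j, hj⟩

theorem mp_continuousOn_Om (τ : ℕ → ℕ) : ContinuousOn (mp τ) (Om m) := by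
  intro x hx
  obtain ⟨j, hj⟩ := mem_Om.1 hx
  exact ((mp_continuousOn τ j).continuousAt ((Dk_open j).mem_nhds hj)).continuousWithinAt

/-- the homeomorphisms -/
noncomputable def hom (m k : ℕ) : Om m ≃ₜ Om' m where
  toFun x := ⟨mp (sig k) x.1, by
    obtain ⟨j, hj⟩ := mem_Om.1 x.2
    exact mem_Om'.2 ⟨sig k j, one_le_sig k j, mp_mem hj⟩⟩
  invFun y := ⟨mp (sig' k) y.1, by
    obtain ⟨j, -, hj⟩ := mem_Om'.1 y.2
    exact mem_Om.2 ⟨sig' k j, mp_mem hj⟩⟩
  left_inv x := by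
    obtain ⟨j, hj⟩ := mem_Om.1 x.2
    exact Subtype.ext (mp_mp hj (sig'_sig k j))
  right_inv y := by
    obtain ⟨j, hj1, hj⟩ := mem_Om'.1 y.2
    exact Subtype.ext (mp_mp hj (sig_sig' k hj1))
  continuous_toFun :=
    (continuousOn_iff_continuous_domRestrict.1 (mp_continuousOn_Om (sig k))).subtype_mk _
  continuous_invFun :=
    (continuousOn_iff_continuous_domRestrict.1
      ((mp_continuousOn_Om (sig' k)).mono Om'_subset)).subtype_mk _

/-- the limit point -/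
noncomputable def bb (m : ℕ) : EE m := (iota m).symm (0, 2, 0)

open Classical in
/-- the limit map -/
noncomputable def flim (x : EE m) : EE m := if x ∈ Dk m 0 then bb m else x

theorem flim_zero {x : EE m} (hx : x ∈ Dk m 0) : flim x = bb m := if_pos hx

theorem flim_pos {j : ℕ} (hj : 1 ≤ j) {x : EE m} (hx : x ∈ Dk m j) : flim x = x := by
  apply if_neg
  intro h0
  have := Dk_unique h0 hx
  omega

theorem norm_sub_bb {j : ℕ} {x : EE m} (hx : x ∈ Dk m j) :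
    ‖x - bb m‖ ≤ ‖((iota m).symm : XX m →L[ℝ] EE m)‖ * (2 * (1 / 4) ^ j) := by
  have h1 : x - bb m = (iota m).symm (iota m x - (0, 2, 0)) := by
    rw [map_sub, ContinuousLinearEquiv.symm_apply_apply]
    rfl
  rw [h1]
  refine (((iota m).symm : XX m →L[ℝ] EE m).le_opNorm _).trans ?_
  apply mul_le_mul_of_nonneg_left _ (norm_nonneg _)
  have h2 := ((par_good j).fst_eq hx).2.2
  have h3 := (par_good j).snd_le hx
  have h4 := (par_good j).trd_le hx
  have e1 : (par j).R = (1 / 4) ^ j := rfl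
  have e3 : (par j).c = 2 - (1 / 4) ^ j := rfl
  have e4 : (par j).δ = (1 / 16) ^ j / 32 := rfl
  rw [e1] at h2
  rw [e1, e3] at h3
  rw [e4] at h4
  have hp : 0 < (1 / 4 : ℝ) ^ j := by positivity
  have hp2 : (1 / 16 : ℝ) ^ j ≤ (1 / 4 : ℝ) ^ j := by
    apply pow_le_pow_left₀ <;> norm_num
  refine max_le ?_ (max_le ?_ ?_)
  · show ‖(iota m x).1 - 0‖ ≤ _
    rw [sub_zero]
    linarith
  · show ‖(iota m x).2.1 - 2‖ ≤ _
    rw [Real.norm_eq_abs, abs_le]
    have := abs_le.1 h3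
    constructor <;> linarith [this.1, this.2]
  · show ‖(iota m x).2.2 - 0‖ ≤ _
    rw [sub_zero]
    linarith

theorem tendsto_mp {x : EE m} (hx : x ∈ Om m) :
    Tendsto (fun k => mp (sig k) x) atTop (𝓝 (flim x)) := by
  obtain ⟨j, hj⟩ := mem_Om.1 hx
  rcases Nat.eq_zero_or_pos j with h0 | h0
  · subst h0
    rw [flim_zero hj, tendsto_iff_norm_sub_tendsto_zero]
    have h1 : ∀ k, ‖mp (sig k) x - bb m‖ ≤
        ‖((iota m).symm : XX m →L[ℝ] EE m)‖ * (2 * (1 / 4) ^ (k + 1)) := by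
      intro k
      have h2 : mp (sig k) x ∈ Dk m (k + 1) := by
        have := mp_mem (τ := sig k) hj
        rwa [show sig k 0 = k + 1 from rfl] at this
      exact norm_sub_bb h2
    refine squeeze_zero (fun _ => norm_nonneg _) h1 ?_
    have h2 : Tendsto (fun k : ℕ => (1 / 4 : ℝ) ^ (k + 1)) atTop (𝓝 0) :=
      (tendsto_add_atTop_iff_nat 1).2 (tendsto_pow_atTop_nhds_zero_of_lt_one (by norm_num) (by norm_num))
    simpa using (h2.const_mul 2).const_mul ‖((iota m).symm : XX m →L[ℝ] EE m)‖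
  · rw [flim_pos h0 hj]
    apply tendsto_const_nhds.congr'
    filter_upwards [eventually_ge_atTop j] with k hk
    rw [mp_id hj]
    unfold sig
    split_ifs <;> omega

/-- a bound -/
noncomputable def BB (m : ℕ) : ℝ := ‖((iota m).symm : XX m →L[ℝ] EE m)‖ * 2 + ‖bb m‖

theorem norm_le_BB {x : EE m} (hx : x ∈ Om m) : ‖x‖ ≤ BB m := by
  obtain ⟨j, hj⟩ := mem_Om.1 hx
  have h1 := norm_sub_bb hj
  have h2 : ‖x‖ ≤ ‖x - bb m‖ + ‖bb m‖ := by
    have := norm_add_le (x - bb m) (bb m)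
    rwa [sub_add_cancel] at this
  have h3 : (1 / 4 : ℝ) ^ j ≤ 1 := pow_le_one₀ (by norm_num) (by norm_num)
  have h4 : 0 ≤ ‖((iota m).symm : XX m →L[ℝ] EE m)‖ := norm_nonneg _
  unfold BB
  nlinarith

theorem Om_bounded : Bornology.IsBounded (Om m) :=
  (isBounded_iff_forall_norm_le.2 ⟨BB m, fun _ hx => norm_le_BB hx⟩)

theorem flim_mem_closure {x : EE m} (hx : x ∈ Om m) : flim x ∈ closure (Om' m) := by
  have h1 : ∀ k, mp (sig k) x ∈ Om' m := fun k => (hom m k ⟨x, hx⟩).2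
  exact mem_closure_of_tendsto (tendsto_mp hx) (Eventually.of_forall h1)

theorem mp_lip_Om (k : ℕ) {x : EE m} (hx : x ∈ Om m) :
    ∃ r > 0, ball x r ⊆ Om m ∧ ∀ y ∈ ball x r, ∀ z ∈ ball x r,
      ‖mp (sig k) y - mp (sig k) z‖ ≤ CL m * ‖y - z‖ := by
  obtain ⟨j, hj⟩ := mem_Om.1 hx
  obtain ⟨r, hr, h1, h2⟩ := mp_lip (le_sig k j) hj
  exact ⟨r, hr, fun y hy => mem_Om.2 ⟨j, h1 hy⟩, h2⟩

theorem flim_lip_Om {x : EE m} (hx : x ∈ Om m) :
    ∃ r > 0, ball x r ⊆ Om m ∧ ∀ y ∈ ball x r, ∀ z ∈ ball x r,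
      ‖flim y - flim z‖ ≤ CL m * ‖y - z‖ := by
  obtain ⟨j, hj⟩ := mem_Om.1 hx
  obtain ⟨r, hr, hb⟩ := Metric.isOpen_iff.1 (Dk_open (m := m) j) x hj
  refine ⟨r, hr, fun y hy => mem_Om.2 ⟨j, hb hy⟩, fun y hy z hz => ?_⟩
  have hC1 : 1 ≤ CL m := by
    unfold CL
    have : 0 ≤ 36 * ‖((iota m).symm : XX m →L[ℝ] EE m)‖ *
      ‖((iota m : EE m ≃L[ℝ] XX m) : EE m →L[ℝ] XX m)‖ := by positivity
    linarith
  rcases Nat.eq_zero_or_pos j with h0 | h0
  · subst h0
    rw [flim_zero (hb hy), flim_zero (hb hz), sub_self, norm_zero]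
    exact mul_nonneg (CL_nonneg m) (norm_nonneg _)
  · rw [flim_pos h0 (hb hy), flim_pos h0 (hb hz)]
    nlinarith [norm_nonneg (y - z)]

/-- locally Lipschitz maps, from the local estimates -/
theorem locallyLipschitzOn_of {f : EE m → EE m} {C : ℝ} (hC : 0 ≤ C)
    (h : ∀ x ∈ Om m, ∃ r > 0, ball x r ⊆ Om m ∧ ∀ y ∈ ball x r, ∀ z ∈ ball x r,
      ‖f y - f z‖ ≤ C * ‖y - z‖) : LocallyLipschitzOn (Om m) f := by
  intro x hx
  obtain ⟨r, hr, h1, h2⟩ := h x hx
  refine ⟨⟨C, hC⟩, ball x r, mem_nhdsWithin_of_mem_nhds (ball_mem_nhds x hr), ?_⟩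
  apply LipschitzOnWith.of_dist_le_mul
  intro y hy z hz
  rw [dist_eq_norm, dist_eq_norm]
  exact h2 y hy z hz

theorem norm_fderiv_le_of {f : EE m → EE m} {C : ℝ} (hC : 0 ≤ C)
    (h : ∀ x ∈ Om m, ∃ r > 0, ball x r ⊆ Om m ∧ ∀ y ∈ ball x r, ∀ z ∈ ball x r,
      ‖f y - f z‖ ≤ C * ‖y - z‖) {x : EE m} (hx : x ∈ Om m) : ‖fderiv ℝ f x‖ ≤ C := by
  obtain ⟨r, hr, h1, h2⟩ := h x hx
  apply norm_fderiv_le_of_local hC
  filter_upwards [ball_mem_nhds x hr] with y hy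
  exact h2 y hy x (mem_ball_self hr)

/-- A homeomorphism of `Om` onto `Om'` maps the component `D_0` onto some component `D_j`. -/
theorem exists_component (e : Om m ≃ₜ Om' m) :
    ∃ j, 1 ≤ j ∧ (∀ x : Om m, x.1 ∈ Dk m 0 → (e x).1 ∈ Dk m j) ∧
      ∀ y : Om' m, y.1 ∈ Dk m j → (e.symm y).1 ∈ Dk m 0 := by
  have hconn : ∀ j, IsPreconnected (Dk m j) := by
    intro j
    have h1 : Dk m j = (iota m).symm '' ((par j).D m) := by
      rw [ContinuousLinearEquiv.image_symm_eq_preimage]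
      rfl
    rw [h1]
    exact ((par j).D_connected.isPreconnected).image _ (iota m).symm.continuous.continuousOn
  -- a preconnected subset of the union lies in one component
  have hone : ∀ (S : Set (EE m)), IsPreconnected S → S ⊆ Om m → ∀ j, (S ∩ Dk m j).Nonempty →
      S ⊆ Dk m j := by
    intro S hS hSO j hj
    have h1 : S ⊆ Dk m j ∪ ⋃ (i : ℕ) (_ : i ≠ j), Dk m i := by
      intro x hx
      obtain ⟨i, hi⟩ := mem_Om.1 (hSO hx)
      by_cases hij : i = j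
      · left; rwa [← hij]
      · right
        exact mem_iUnion₂.2 ⟨i, hij, hi⟩
    refine hS.subset_left_of_subset_union (Dk_open j)
      (isOpen_iUnion fun i => isOpen_iUnion fun _ => Dk_open i) ?_ h1 hj
    rw [Set.disjoint_left]
    intro x hx hx'
    obtain ⟨i, hij, hi⟩ := mem_iUnion₂.1 hx'
    exact hij (Dk_unique hi hx)
  obtain ⟨x₀, hx₀⟩ := ((par 0).D_connected (m := m)).nonempty
  set x₁ : EE m := (iota m).symm x₀ with hx₁
  have hx₁D : x₁ ∈ Dk m 0 := by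
    show iota m ((iota m).symm x₀) ∈ (par 0).D m
    rwa [ContinuousLinearEquiv.apply_symm_apply]
  have hx₁O : x₁ ∈ Om m := mem_Om.2 ⟨0, hx₁D⟩
  obtain ⟨j, hj1, hj⟩ := mem_Om'.1 (e ⟨x₁, hx₁O⟩).2
  have hsub0 : Dk m 0 ⊆ Om m := fun x hx => mem_Om.2 ⟨0, hx⟩
  have hsubj : Dk m j ⊆ Om' m := fun x hx => mem_Om'.2 ⟨j, hj1, hx⟩
  refine ⟨j, hj1, ?_, ?_⟩
  · have h1 : IsPreconnected ((fun x : Om m => (e x).1) '' ((↑) ⁻¹' Dk m 0)) := by
      apply IsPreconnected.image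
      · have h2 : IsPreconnected ((↑) ⁻¹' Dk m 0 : Set (Om m)) := by
          apply (hconn 0).preimage_of_isOpenMap Subtype.val_injective Om_open.isOpenMap_subtype_val
          rw [Subtype.range_coe]
          exact hsub0
        exact h2
      · exact (continuous_subtype_val.comp e.continuous).continuousOn
    have h2 := hone _ h1 (by
      rintro y ⟨x, -, rfl⟩
      exact Om'_subset (e x).2) j ⟨(e ⟨x₁, hx₁O⟩).1, ⟨⟨x₁, hx₁O⟩, hx₁D, rfl⟩, hj⟩
    intro x hx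
    exact h2 ⟨x, hx, rfl⟩
  · have h1 : IsPreconnected ((fun y : Om' m => (e.symm y).1) '' ((↑) ⁻¹' Dk m j)) := by
      apply IsPreconnected.image
      · have h2 : IsPreconnected ((↑) ⁻¹' Dk m j : Set (Om' m)) := by
          apply (hconn j).preimage_of_isOpenMap Subtype.val_injective Om'_open.isOpenMap_subtype_val
          rw [Subtype.range_coe]
          exact hsubj
        exact h2
      · exact (continuous_subtype_val.comp e.symm.continuous).continuousOn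
    have h2 := hone _ h1 (by
      rintro y ⟨x, -, rfl⟩
      exact (e.symm x).2) 0 ⟨x₁, ⟨⟨e ⟨x₁, hx₁O⟩, hj, by
        simp⟩, hx₁D⟩⟩
    intro x hx
    exact h2 ⟨x, hx, rfl⟩

end Pool.Agent.K6.H31.WS
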