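import Pool.Agent.K6.H31.WS.Space

/-!
# Lower bound for the energy of homeomorphisms of the round solid torus onto a wound one
-/

set_option autoImplicit false

open Set Filter Topology MeasureTheory Metric
open scoped ContDiff ENNReal NNReal

namespace Pool.Agent.K6.H31.WS

variable {m : ℕ}

/-- the round solid torus -/
noncomputable def P0 : Par := ⟨1, 1, 0, 1 / 32, 1⟩

theorem P0_good : P0.Good where
  hN := one_pos
  hNR := by norm_num [P0]
  hρ := le_rfl
  hρR := by norm_num [P0]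
  hδ := by norm_num [P0]
  hδR := by norm_num [P0]
  hc := Or.inl rfl

/-- a thinner round solid torus -/
noncomputable def P0h : Par := ⟨1, 1, 0, 1 / 64, 1⟩

theorem P0h_good : P0h.Good where
  hN := one_pos
  hNR := by norm_num [P0h]
  hρ := le_rfl
  hρR := by norm_num [P0h]
  hδ := by norm_num [P0h]
  hδR := by norm_num [P0h]
  hc := Or.inl rfl

/-- the solid torus in `ℝ^{m+3}` -/
def Par.DE (P : Par) (m : ℕ) : Set (EE m) := iota m ⁻¹' P.D m

theorem Par.Good.isOpen_DE {P : Par} (h : P.Good) : IsOpen (P.DE m) :=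
  h.isOpen_D.preimage (iota m).continuous

/-- a compact rotation invariant subset of the round solid torus -/
def KK (m : ℕ) : Set (EE m) :=
  iota m ⁻¹' (P0.f '' {p | ‖p.1‖ = 1 ∧ ‖p.2.1‖ ≤ 1 / 2 ∧ ‖p.2.2‖ ≤ 1 / 2})

theorem KK_compact (m : ℕ) : IsCompact (KK m) := by
  have h1 : IsCompact {p : ℂ × ℂ × (Fin m → ℝ) | ‖p.1‖ = 1 ∧ ‖p.2.1‖ ≤ 1 / 2 ∧ ‖p.2.2‖ ≤ 1 / 2} := by
    have : {p : ℂ × ℂ × (Fin m → ℝ) | ‖p.1‖ = 1 ∧ ‖p.2.1‖ ≤ 1 / 2 ∧ ‖p.2.2‖ ≤ 1 / 2} =
        sphere (0 : ℂ) 1 ×ˢ (closedBall (0 : ℂ) (1 / 2) ×ˢ closedBall (0 : Fin m → ℝ) (1 / 2)) := by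
      ext p
      simp
    rw [this]
    exact (isCompact_sphere _ _).prod ((isCompact_closedBall _ _).prod (isCompact_closedBall _ _))
  exact (iota m).toHomeomorph.isCompact_preimage.2 (h1.image P0.f_continuous)

theorem KK_subset (m : ℕ) : KK m ⊆ P0.DE m := by
  rintro x ⟨p, ⟨h1, h2, h3⟩, h4⟩
  exact ⟨p, ⟨h1, by linarith, by linarith⟩, h4⟩

theorem rot_mem_KK {x : EE m} (θ : ℝ) (hx : x ∈ KK m) : rot m θ x ∈ KK m := by
  obtain ⟨⟨u, η, y⟩, ⟨h1, h2, h3⟩, h4⟩ := hx
  refine ⟨(Complex.exp (θ * Complex.I) * u, η, y), ⟨?_, h2, h3⟩, ?_⟩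
  · show ‖Complex.exp (θ * Complex.I) * u‖ = 1
    rw [norm_mul, Complex.norm_exp_ofReal_mul_I, one_mul]
    exact h1
  · rw [iota_rot, ← h4]
    unfold Par.f P0
    simp
    ring

theorem rot_preimage_KK (θ : ℝ) : rot m θ ⁻¹' KK m = KK m := by
  ext x
  constructor
  · intro hx
    have h1 := rot_mem_KK (-θ) hx
    rwa [rot_rot, neg_add_cancel, rot_zero] at h1
  · exact fun hx => rot_mem_KK θ hx

theorem KK_volume_pos (m : ℕ) : 0 < volume (KK m) := by
  have h1 : P0h.DE m ⊆ KK m := by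
    rintro x ⟨⟨u, η, y⟩, ⟨h1, h2, h3⟩, h4⟩
    simp only at h1 h2 h3
    refine ⟨(u, (1 / 2 : ℂ) * η, (1 / 2 : ℝ) • y), ⟨h1, ?_, ?_⟩, ?_⟩
    · show ‖(1 / 2 : ℂ) * η‖ ≤ 1 / 2
      rw [norm_mul]
      norm_num
      linarith
    · show ‖(1 / 2 : ℝ) • y‖ ≤ 1 / 2
      rw [norm_smul]
      norm_num
      linarith
    · rw [← h4]
      unfold Par.f P0 P0h
      refine Prod.ext ?_ (Prod.ext ?_ ?_)
      · simp
        left
        ring
      · simp
        ring
      · show (1 / 32 : ℝ) • (1 / 2 : ℝ) • y = (1 / 64 : ℝ) • y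
        rw [smul_smul]
        norm_num
  have h2 : (P0h.DE m).Nonempty := by
    obtain ⟨x, hx⟩ := (P0h.D_connected (m := m)).nonempty
    exact ⟨(iota m).symm x, by
      show iota m ((iota m).symm x) ∈ P0h.D m
      rwa [ContinuousLinearEquiv.apply_symm_apply]⟩
  exact (P0h_good.isOpen_DE.measure_pos volume h2).trans_le (measure_mono h1)

/-- the constant in the lower bound -/
noncomputable def cst (m : ℕ) (B : ℝ≥0) : ℝ≥0∞ :=
  ‖((iota m : EE m ≃L[ℝ] XX m) : EE m →L[ℝ] XX m)‖ₑ * B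

theorem loop_bound {P : Par} (hP : P.Good) {g g' : EE m → EE m}
    (hg : ContinuousOn g (P0.DE m)) (hgm : MapsTo g (P0.DE m) (P.DE m))
    (hg' : ContinuousOn g' (P.DE m)) (hgm' : MapsTo g' (P.DE m) (P0.DE m))
    (hgg : ∀ x ∈ P0.DE m, g' (g x) = x) {h : EE m → EE m} (hh : ContDiff ℝ 1 h)
    {ε : ℝ} (hε : cthickening ε (g '' KK m) ⊆ P.DE m) (hhg : ∀ x ∈ KK m, ‖h x - g x‖ ≤ ε)
    {x : EE m} (hx : x ∈ KK m) :
    4 ≤ ∫ θ in (0 : ℝ)..2 * Real.pi, ‖iota m (fderiv ℝ h (rot m θ x) (rot' m θ x))‖ := by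
  by_contra hlt
  push Not at hlt
  set F : XX m → ℂ := fun z => (iota m (g' ((iota m).symm z))).1 with hF
  have hmt : MapsTo (iota m).symm (P.D m) (P.DE m) := by
    intro z hz
    show iota m ((iota m).symm z) ∈ P.D m
    rwa [ContinuousLinearEquiv.apply_symm_apply]
  have hFc : ContinuousOn F (P.D m) := by
    have h1 : ContinuousOn (fun z => g' ((iota m).symm z)) (P.D m) :=
      hg'.comp (iota m).symm.continuous.continuousOn hmt
    exact (continuous_fst.comp (iota m).continuous).comp_continuousOn h1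
  have hF0 : ∀ z ∈ P.D m, F z ≠ 0 := by
    intro z hz
    have h1 : iota m (g' ((iota m).symm z)) ∈ P0.D m := hgm' (hmt hz)
    have h2 := (P0_good.fst_eq h1).2.1
    rw [← norm_pos_iff]
    refine lt_of_lt_of_le ?_ h2
    have := P0_good.R_pos
    positivity
  have hrotK : ∀ θ, rot m θ x ∈ KK m := fun θ => rot_mem_KK θ hx
  have hseg : ∀ (s θ : ℝ), 0 ≤ s → s ≤ 1 →
      g (rot m θ x) + s • (h (rot m θ x) - g (rot m θ x)) ∈ P.DE m := by
    intro s θ hs0 hs1
    apply hε
    apply mem_cthickening_of_dist_le _ (g (rot m θ x)) _ _ (mem_image_of_mem g (hrotK θ))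
    rw [dist_eq_norm, add_sub_cancel_left, norm_smul, Real.norm_eq_abs, abs_of_nonneg hs0]
    have h1 := hhg _ (hrotK θ)
    nlinarith [norm_nonneg (h (rot m θ x) - g (rot m θ x))]
  have hrotc : Continuous fun θ => rot m θ x :=
    rot_continuous.comp (continuous_id.prodMk continuous_const)
  have hrotc' : Continuous fun θ => rot' m θ x :=
    rot'_continuous.comp (continuous_id.prodMk continuous_const)
  -- the short loop
  have hL := hP.hasLog_of_short (β := fun θ => iota m (h (rot m θ x)))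
    (β' := fun θ => iota m (fderiv ℝ h (rot m θ x) (rot' m θ x))) (fun θ => ?_) ?_ ?_ ?_ hlt hFc hF0
  rotate_left
  · have h1 : HasDerivAt (fun θ => h (rot m θ x)) (fderiv ℝ h (rot m θ x) (rot' m θ x)) θ :=
      ((hh.differentiable one_ne_zero).differentiableAt.hasFDerivAt).comp_hasDerivAt θ
        (hasDerivAt_rot θ x)
    exact ((iota m : EE m ≃L[ℝ] XX m) : EE m →L[ℝ] XX m).hasFDerivAt.comp_hasDerivAt θ h1
  · exact (iota m).continuous.comp
      (((hh.continuous_fderiv one_ne_zero).comp hrotc).clm_apply hrotc')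
  · intro θ
    rw [rot_two_pi]
  · intro θ
    have h1 := hseg 1 θ zero_le_one le_rfl
    rw [one_smul, add_sub_cancel] at h1
    exact h1
  -- the homotopy
  let c : ℝ → ℝ := fun s => max 0 (min 1 s)
  have hc0 : ∀ s, 0 ≤ c s := fun s => le_max_left _ _
  have hc1 : ∀ s, c s ≤ 1 := fun s => max_le zero_le_one (min_le_left _ _)
  have hcc : Continuous c := by fun_prop
  let A : ℝ × ℝ → XX m := fun p =>
    iota m (g (rot m p.2 x) + c p.1 • (h (rot m p.2 x) - g (rot m p.2 x)))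
  have hAD : ∀ p, A p ∈ P.D m := fun p => hseg (c p.1) p.2 (hc0 _) (hc1 _)
  have hgc : Continuous fun θ => g (rot m θ x) :=
    hg.comp_continuous hrotc fun θ => KK_subset m (hrotK θ)
  have hAc : Continuous A := by
    apply (iota m).continuous.comp
    have h1 : Continuous fun p : ℝ × ℝ => g (rot m p.2 x) := hgc.comp continuous_snd
    have h2 : Continuous fun p : ℝ × ℝ => h (rot m p.2 x) :=
      hh.continuous.comp (hrotc.comp continuous_snd)
    exact h1.add ((hcc.comp continuous_fst).smul (h2.sub h1))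
  have h1 := HasLog.of_homotopy (H := fun p => F (A p)) (hFc.comp_continuous hAc hAD)
    (fun p => hF0 _ (hAD p)) (fun s θ => by
      show F (A (s, θ + 2 * Real.pi)) = F (A (s, θ))
      have : A (s, θ + 2 * Real.pi) = A (s, θ) := by
        show iota m (g (rot m (θ + 2 * Real.pi) x) + c s • (h (rot m (θ + 2 * Real.pi) x) -
          g (rot m (θ + 2 * Real.pi) x))) = iota m (g (rot m θ x) + c s • (h (rot m θ x) -
          g (rot m θ x)))
        rw [rot_two_pi]
      rw [this]) ?_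
  · have h2 : (fun θ => (fun p => F (A p)) ((0 : ℝ), θ)) =
        fun θ : ℝ => Complex.exp (θ * Complex.I) * (iota m x).1 := by
      funext θ
      have h3 : A (0, θ) = iota m (g (rot m θ x)) := by
        show iota m (g (rot m θ x) + c 0 • (h (rot m θ x) - g (rot m θ x))) = _
        have : c 0 = 0 := by
          show max 0 (min 1 0) = (0 : ℝ)
          norm_num
        rw [this, zero_smul, add_zero]
      show F (A (0, θ)) = _
      rw [h3, hF]
      simp only
      rw [ContinuousLinearEquiv.symm_apply_apply, hgg _ (KK_subset m (hrotK θ)), iota_rot]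
    rw [h2] at h1
    refine not_hasLog_exp ?_ h1
    have h3 := (P0_good.fst_eq (KK_subset m hx)).2.1
    rw [← norm_pos_iff]
    refine lt_of_lt_of_le ?_ h3
    have := P0_good.R_pos
    positivity
  · have h2 : (fun θ => (fun p => F (A p)) ((1 : ℝ), θ)) =
        fun θ => F (iota m (h (rot m θ x))) := by
      funext θ
      have h3 : A (1, θ) = iota m (h (rot m θ x)) := by
        show iota m (g (rot m θ x) + c 1 • (h (rot m θ x) - g (rot m θ x))) = _
        have : c 1 = 1 := by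
          show max 0 (min 1 1) = (1 : ℝ)
          norm_num
        rw [this, one_smul, add_sub_cancel]
      show F (A (1, θ)) = _
      rw [h3]
    rw [h2]
    exact hL

theorem energy_lower {P : Par} (hP : P.Good) {g g' : EE m → EE m} {G : EE m → EE m →L[ℝ] EE m}
    (hg : ContinuousOn g (P0.DE m)) (hgm : MapsTo g (P0.DE m) (P.DE m))
    (hg' : ContinuousOn g' (P.DE m)) (hgm' : MapsTo g' (P.DE m) (P0.DE m))
    (hgg : ∀ x ∈ P0.DE m, g' (g x) = x) (hG : IntegrableOn G (P0.DE m))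
    (hw : HasWeakGrad (P0.DE m) g G) {B : ℝ≥0} (hB : ∀ x ∈ KK m, ‖x‖ ≤ B) :
    ENNReal.ofReal 4 * volume (KK m) ≤
      cst m B * ENNReal.ofReal (2 * Real.pi) * ∫⁻ x in P0.DE m, ‖G x‖ₑ := by
  have hKc : IsCompact (g '' KK m) := (KK_compact m).image_of_continuousOn (hg.mono (KK_subset m))
  obtain ⟨ε, hε, hεs⟩ := hKc.exists_cthickening_subset_open hP.isOpen_DE
    (image_subset_iff.2 fun x hx => hgm (KK_subset m hx))
  obtain ⟨h, hh, hhg, hhG⟩ := exists_mollified P0_good.isOpen_DE hg hG hw (KK_compact m)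
    (KK_subset m) hε
  have hKm : MeasurableSet (KK m) := (KK_compact m).measurableSet
  have hdh : Continuous fun x => fderiv ℝ h x := hh.continuous_fderiv one_ne_zero
  have h1 : ∀ x ∈ KK m, ENNReal.ofReal 4 ≤ cst m B *
      ∫⁻ θ in Ioc 0 (2 * Real.pi), ‖fderiv ℝ h (rot m θ x)‖ₑ := by
    intro x hx
    have h2 := loop_bound hP hg hgm hg' hgm' hgg hh hεs hhg hx
    have hrotc : Continuous fun θ => rot m θ x :=
      rot_continuous.comp (continuous_id.prodMk continuous_const)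
    have hrotc' : Continuous fun θ => rot' m θ x :=
      rot'_continuous.comp (continuous_id.prodMk continuous_const)
    have hcont : Continuous fun θ => iota m (fderiv ℝ h (rot m θ x) (rot' m θ x)) :=
      (iota m).continuous.comp ((hdh.comp hrotc).clm_apply hrotc')
    rw [intervalIntegral.integral_of_le (by positivity)] at h2
    have h3 : ENNReal.ofReal (∫ θ in Ioc 0 (2 * Real.pi),
        ‖iota m (fderiv ℝ h (rot m θ x) (rot' m θ x))‖) =
        ∫⁻ θ in Ioc 0 (2 * Real.pi), ‖iota m (fderiv ℝ h (rot m θ x) (rot' m θ x))‖ₑ := by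
      rw [ofReal_integral_norm_eq_lintegral_enorm]
      exact (hcont.integrableOn_Icc).mono_set Ioc_subset_Icc_self
    refine (ENNReal.ofReal_le_ofReal h2).trans ?_
    have hmm : Measurable fun θ => ‖fderiv ℝ h (rot m θ x)‖ₑ :=
      (hdh.comp hrotc).measurable.enorm
    rw [h3, ← lintegral_const_mul _ hmm]
    refine lintegral_mono fun θ => ?_
    have h4 : ‖iota m (fderiv ℝ h (rot m θ x) (rot' m θ x))‖ₑ ≤
        ‖((iota m : EE m ≃L[ℝ] XX m) : EE m →L[ℝ] XX m)‖ₑ *
          (‖fderiv ℝ h (rot m θ x)‖ₑ * ‖rot' m θ x‖ₑ) := by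
      refine (ContinuousLinearMap.le_opENorm ((iota m : EE m ≃L[ℝ] XX m) : EE m →L[ℝ] XX m) _).trans ?_
      gcongr
      exact ContinuousLinearMap.le_opENorm _ _
    refine h4.trans ?_
    have h5 : ‖rot' m θ x‖ₑ ≤ B := by
      rw [enorm_le_coe, ← NNReal.coe_le_coe, coe_nnnorm]
      exact (norm_rot' θ x).trans (hB x hx)
    calc _ ≤ ‖((iota m : EE m ≃L[ℝ] XX m) : EE m →L[ℝ] XX m)‖ₑ *
          (‖fderiv ℝ h (rot m θ x)‖ₑ * B) := by gcongr
      _ = _ := by
          unfold cst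
          ring
  have hmeas : Measurable fun p : EE m × ℝ => ‖fderiv ℝ h (rot m p.2 p.1)‖ₑ :=
    (hdh.comp (rot_continuous.comp (continuous_snd.prodMk continuous_fst))).measurable.enorm
  calc ENNReal.ofReal 4 * volume (KK m) = ∫⁻ x in KK m, ENNReal.ofReal 4 := by
        rw [setLIntegral_const]
    _ ≤ ∫⁻ x in KK m, cst m B * ∫⁻ θ in Ioc 0 (2 * Real.pi), ‖fderiv ℝ h (rot m θ x)‖ₑ :=
        setLIntegral_mono' hKm h1
    _ = cst m B * ∫⁻ x in KK m, ∫⁻ θ in Ioc 0 (2 * Real.pi), ‖fderiv ℝ h (rot m θ x)‖ₑ := by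
        rw [lintegral_const_mul]
        exact hmeas.lintegral_prod_right'
    _ = cst m B * ∫⁻ θ in Ioc 0 (2 * Real.pi), ∫⁻ x in KK m, ‖fderiv ℝ h (rot m θ x)‖ₑ := by
        rw [lintegral_lintegral_swap]
        exact hmeas.aemeasurable
    _ = cst m B * ∫⁻ θ in Ioc 0 (2 * Real.pi), ∫⁻ x in KK m, ‖fderiv ℝ h x‖ₑ := by
        congr 1
        refine lintegral_congr fun θ => ?_
        have h2 := (rot_measurePreserving (m := m) θ).setLIntegral_comp_preimage hKm
          (f := fun x => ‖fderiv ℝ h x‖ₑ) hdh.measurable.enorm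
        rw [rot_preimage_KK] at h2
        exact h2
    _ = cst m B * ENNReal.ofReal (2 * Real.pi) * ∫⁻ x in KK m, ‖fderiv ℝ h x‖ₑ := by
        rw [setLIntegral_const, Real.volume_Ioc, sub_zero]
        ring
    _ ≤ cst m B * ENNReal.ofReal (2 * Real.pi) * ∫⁻ x in P0.DE m, ‖G x‖ₑ := by
        gcongr

end Pool.Agent.K6.H31.WS
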