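import Mathlib

/-!
# Weak gradients of locally Lipschitz maps, weak convergence, mollification
-/

set_option autoImplicit false

open Set Filter Topology MeasureTheory
open scoped ContDiff ENNReal NNReal

namespace Pool.Agent.K6.H31.WS

variable {E : Type*} [NormedAddCommGroup E] [InnerProductSpace ℝ E] [FiniteDimensional ℝ E]
  [MeasurableSpace E] [BorelSpace E]

/-- `G` is the weak gradient of `f` on `Ω`. -/
def HasWeakGrad (Ω : Set E) (f : E → E) (G : E → E →L[ℝ] E) : Prop :=
  ∀ φ : E → ℝ, ContDiff ℝ ∞ φ → HasCompactSupport φ → tsupport φ ⊆ Ω → ∀ v : E,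
    ∫ x in Ω, (fderiv ℝ φ x v) • f x = - ∫ x in Ω, φ x • G x v

/-- integration by parts for Lipschitz maps -/
theorem ibp_lipschitz {F : E → E} {C : ℝ≥0} (hF : LipschitzWith C F) {φ : E → ℝ}
    (hφ : ContDiff ℝ ∞ φ) (hc : HasCompactSupport φ) (v : E) :
    ∫ x, (fderiv ℝ φ x v) • F x = - ∫ x, φ x • fderiv ℝ F x v := by
  obtain ⟨D, hD⟩ := ContDiff.lipschitzWith_of_hasCompactSupport hc hφ (by simp)
  have hdφ : Continuous fun x => fderiv ℝ φ x v :=
    (hφ.continuous_fderiv (by simp)).clm_apply continuous_const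
  have hdφc : HasCompactSupport fun x => fderiv ℝ φ x v := (hc.fderiv ℝ).comp_left (g := fun L : E →L[ℝ] ℝ => L v) rfl
  have hI1 : Integrable fun x => (fderiv ℝ φ x v) • F x :=
    (hdφ.smul hF.continuous).integrable_of_hasCompactSupport hdφc.smul_right
  have hI2 : Integrable fun x => φ x • fderiv ℝ F x v := by
    have h1 : Integrable φ := hφ.continuous.integrable_of_hasCompactSupport hc
    have h2 : Integrable fun x => C * ‖v‖ * ‖φ x‖ := h1.norm.const_mul _
    refine h2.mono' ?_ ?_
    · exact hφ.continuous.aestronglyMeasurable.smul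
        (measurable_fderiv_apply_const ℝ F v).aestronglyMeasurable
    · refine Eventually.of_forall fun x => ?_
      rw [norm_smul]
      have h3 : ‖fderiv ℝ F x v‖ ≤ C * ‖v‖ :=
        ((fderiv ℝ F x).le_opNorm v).trans
          (mul_le_mul_of_nonneg_right (norm_fderiv_le_of_lipschitz ℝ hF) (norm_nonneg _))
      nlinarith [norm_nonneg (φ x)]
  refine ext_inner_left ℝ fun e => ?_
  rw [inner_neg_right, ← integral_inner hI1, ← integral_inner hI2, ← integral_neg]
  have he : LipschitzWith (‖innerSL ℝ e‖₊ * C) fun x => inner ℝ e (F x) :=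
    (innerSL ℝ e).lipschitz.comp hF
  have h3 := LipschitzWith.integral_lineDeriv_mul_eq (μ := (volume : Measure E)) he hD hc v
  have h4 : ∫ x, lineDeriv ℝ φ x (-v) * inner ℝ e (F x) = - ∫ x, inner ℝ e ((fderiv ℝ φ x v) • F x) := by
    rw [← integral_neg]
    refine integral_congr_ae (Eventually.of_forall fun x => ?_)
    simp only
    rw [(hφ.differentiable (by simp)).differentiableAt.lineDeriv_eq_fderiv, map_neg,
      inner_smul_right]
    ring
  have h5 : ∫ x, lineDeriv ℝ (fun x => inner ℝ e (F x)) x v * φ x =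
      ∫ x, inner ℝ e (φ x • fderiv ℝ F x v) := by
    refine integral_congr_ae ?_
    filter_upwards [hF.ae_differentiableAt] with x hx
    have h6 : HasFDerivAt (fun x => inner ℝ e (F x)) ((innerSL ℝ e).comp (fderiv ℝ F x)) x :=
      (innerSL ℝ e).hasFDerivAt.comp x hx.hasFDerivAt
    rw [h6.differentiableAt.lineDeriv_eq_fderiv, h6.fderiv, inner_smul_right, mul_comm]
    rfl
  rw [h4, h5] at h3
  rw [integral_neg, h3, neg_neg]

/-- locally Lipschitz maps have weak gradients -/
theorem hasWeakGrad_of_locallyLipschitz {Ω : Set E} (hΩ : IsOpen Ω) {f : E → E}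
    (hf : LocallyLipschitzOn Ω f) : HasWeakGrad Ω f (fderiv ℝ f) := by
  intro φ hφ hc hs v
  obtain ⟨K, hK, hφK, hKΩ⟩ := exists_compact_between hc hΩ hs
  obtain ⟨C, hC⟩ := (hf.mono hKΩ).exists_lipschitzOnWith_of_compact hK
  obtain ⟨F, hF, hFf⟩ := hC.extend_finite_dimension
  have h1 := ibp_lipschitz hF hφ hc v
  have h2 : ∀ x, x ∉ tsupport φ → fderiv ℝ φ x v = 0 := by
    intro x hx
    have : fderiv ℝ φ x = 0 := by
      have h3 := support_fderiv_subset ℝ (f := φ)
      by_contra h4
      exact hx (h3 h4)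
    rw [this]
    rfl
  have h3 : ∀ x, x ∉ tsupport φ → φ x = 0 := fun x hx => image_eq_zero_of_notMem_tsupport hx
  have h4 : ∫ x in Ω, (fderiv ℝ φ x v) • f x = ∫ x, (fderiv ℝ φ x v) • F x := by
    have e := setIntegral_eq_integral_of_forall_compl_eq_zero (s := Ω)
      (f := fun x => (fderiv ℝ φ x v) • F x) (μ := (volume : Measure E))
      (fun x hx => by rw [h2 x (fun h => hx (hs h)), zero_smul])
    rw [← e]
    refine integral_congr_ae (Eventually.of_forall fun x => ?_)
    show (fderiv ℝ φ x v) • f x = (fderiv ℝ φ x v) • F x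
    by_cases hx : x ∈ tsupport φ
    · rw [hFf (interior_subset (hφK hx))]
    · rw [h2 x hx, zero_smul, zero_smul]
  have h5 : ∫ x in Ω, φ x • fderiv ℝ f x v = ∫ x, φ x • fderiv ℝ F x v := by
    have e := setIntegral_eq_integral_of_forall_compl_eq_zero (s := Ω)
      (f := fun x => φ x • fderiv ℝ F x v) (μ := (volume : Measure E))
      (fun x hx => by rw [h3 x (fun h => hx (hs h)), zero_smul])
    rw [← e]
    refine integral_congr_ae (Eventually.of_forall fun x => ?_)
    show φ x • fderiv ℝ f x v = φ x • fderiv ℝ F x v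
    by_cases hx : x ∈ tsupport φ
    · have h6 : f =ᶠ[𝓝 x] F := by
        filter_upwards [isOpen_interior.mem_nhds (hφK hx)] with y hy
        exact hFf (interior_subset hy)
      rw [h6.fderiv_eq]
    · rw [h3 x hx, zero_smul, zero_smul]
  rw [h4, h5]
  exact h1

omit [FiniteDimensional ℝ E] [MeasurableSpace E] [BorelSpace E] in
theorem norm_fderiv_le_of_local {f : E → E} {x : E} {C : ℝ} (hC : 0 ≤ C)
    (h : ∀ᶠ y in 𝓝 x, ‖f y - f x‖ ≤ C * ‖y - x‖) : ‖fderiv ℝ f x‖ ≤ C := by
  by_cases hd : DifferentiableAt ℝ f x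
  · exact hd.hasFDerivAt.le_of_lip' hC h
  · rw [fderiv_zero_of_not_differentiableAt hd, norm_zero]
    exact hC

/-- test functions are dense in `L¹(Ω)` -/
theorem exists_test_approx {Ω : Set E} (hΩ : IsOpen Ω) (hvol : volume Ω ≠ ⊤) {h : E → ℝ}
    (hh : IntegrableOn h Ω) {ε : ℝ} (hε : 0 < ε) :
    ∃ φ : E → ℝ, ContDiff ℝ ∞ φ ∧ HasCompactSupport φ ∧ tsupport φ ⊆ Ω ∧
      ∫ x in Ω, ‖h x - φ x‖ ≤ ε := by
  -- a smooth function
  have h1 : MemLp (Ω.indicator h) 1 (volume : Measure E) :=
    memLp_one_iff_integrable.2 ((integrable_indicator_iff hΩ.measurableSet).2 hh)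
  obtain ⟨g, hgc, hg, hge⟩ := MemLp.exist_eLpNorm_sub_le ENNReal.one_ne_top le_rfl h1
    (half_pos hε)
  obtain ⟨M, hM⟩ : ∃ M, ∀ x, ‖g x‖ ≤ M := hgc.exists_bound_of_continuous hg.continuous
  have hM0 : 0 ≤ M := (norm_nonneg _).trans (hM 0)
  have hη : ENNReal.ofReal (ε / (2 * (M + 1))) ≠ 0 := by
    have : 0 < ε / (2 * (M + 1)) := by positivity
    simpa using this
  obtain ⟨K, hKΩ, hK, hKv⟩ := hΩ.measurableSet.exists_isCompact_sdiff_lt hvol hη
  obtain ⟨K', hK', hKK', hK'Ω⟩ := exists_compact_between hK hΩ hKΩ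
  obtain ⟨χ, hχ1, hχ0, hχ⟩ := exists_contMDiffMap_one_nhds_of_subset_interior
    (n := ⊤) (modelWithCornersSelf ℝ E) hK.isClosed hKK'
  have hχs : ContDiff ℝ ∞ χ := χ.contMDiff.contDiff
  have hts : tsupport (fun x => χ x * g x) ⊆ K' := by
    apply closure_minimal _ hK'.isClosed
    intro x hx
    by_contra h2
    apply hx
    show χ x * g x = 0
    rw [hχ0 x h2, zero_mul]
  refine ⟨fun x => χ x * g x, hχs.mul hg, ?_, hts.trans hK'Ω, ?_⟩
  · exact hK'.of_isClosed_subset (isClosed_tsupport _) hts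
  · have hgi : Integrable g := hg.continuous.integrable_of_hasCompactSupport hgc
    have hci : Integrable fun x => χ x * g x :=
      (hχs.mul hg).continuous.integrable_of_hasCompactSupport
        (hK'.of_isClosed_subset (isClosed_tsupport _) hts)
    have h2 : ∫ x in Ω, ‖h x - g x‖ ≤ ε / 2 := by
      have h3 : ∫ x in Ω, ‖h x - g x‖ ≤ ∫ x, ‖Ω.indicator h x - g x‖ := by
        calc ∫ x in Ω, ‖h x - g x‖ = ∫ x in Ω, ‖Ω.indicator h x - g x‖ := by
              refine setIntegral_congr_fun hΩ.measurableSet fun x hx => ?_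
              show ‖h x - g x‖ = ‖Ω.indicator h x - g x‖
              rw [indicator_of_mem hx]
          _ ≤ ∫ x, ‖Ω.indicator h x - g x‖ := by
              apply setIntegral_le_integral
              · exact ((memLp_one_iff_integrable.1 h1).sub hgi).norm
              · exact Eventually.of_forall fun x => norm_nonneg _
      refine h3.trans ?_
      have h4 := ENNReal.toReal_mono ENNReal.ofReal_ne_top hge
      rw [ENNReal.toReal_ofReal (half_pos hε).le, eLpNorm_one_eq_lintegral_enorm] at h4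
      have h5 := integral_norm_eq_lintegral_enorm
        ((memLp_one_iff_integrable.1 h1).sub hgi).aestronglyMeasurable
      exact h5.trans_le h4
    have h3 : ∫ x in Ω, ‖g x - χ x * g x‖ ≤ ε / 2 := by
      calc ∫ x in Ω, ‖g x - χ x * g x‖ ≤ ∫ x in Ω, (Ω \ K).indicator (fun _ => M) x := by
            apply integral_mono_of_nonneg
            · exact Eventually.of_forall fun x => norm_nonneg _
            · apply Integrable.integrableOn
              rw [integrable_indicator_iff (hΩ.measurableSet.diff hK.measurableSet)]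
              exact integrableOn_const ((measure_mono sdiff_subset).trans_lt hvol.lt_top).ne
            · rw [EventuallyLE, ae_restrict_iff' hΩ.measurableSet]
              refine Eventually.of_forall fun x hx => ?_
              show ‖g x - χ x * g x‖ ≤ (Ω \ K).indicator (fun _ => M) x
              by_cases hxK : x ∈ K
              · have : χ x = 1 := hχ1.self_of_nhdsSet x hxK
                rw [this, one_mul, sub_self, norm_zero]
                exact indicator_nonneg (fun _ _ => hM0) _
              · have hxm : x ∈ Ω \ K := ⟨hx, hxK⟩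
                rw [indicator_of_mem hxm]
                have h4 : g x - χ x * g x = (1 - χ x) * g x := by ring
                rw [h4, norm_mul, Real.norm_eq_abs, abs_of_nonneg (by linarith [(hχ x).2])]
                have h5 := hM x
                have h6 := (hχ x).1
                nlinarith [norm_nonneg (g x)]
        _ = M * volume.real (Ω \ K) := by
            rw [setIntegral_indicator (hΩ.measurableSet.diff hK.measurableSet),
              inter_eq_self_of_subset_right sdiff_subset, setIntegral_const, smul_eq_mul, mul_comm]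
        _ ≤ M * (ε / (2 * (M + 1))) := by
            apply mul_le_mul_of_nonneg_left _ hM0
            exact ENNReal.toReal_le_of_le_ofReal (by positivity) hKv.le
        _ ≤ ε / 2 := by
            rw [mul_div_assoc', div_le_div_iff₀ (by positivity) (by positivity)]
            nlinarith
    calc ∫ x in Ω, ‖h x - χ x * g x‖ ≤ ∫ x in Ω, (‖h x - g x‖ + ‖g x - χ x * g x‖) := by
          apply integral_mono_of_nonneg
          · exact Eventually.of_forall fun x => norm_nonneg _
          · exact (hh.sub hgi.integrableOn).norm.add (hgi.sub hci).integrableOn.norm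
          · refine Eventually.of_forall fun x => ?_
            have : h x - χ x * g x = (h x - g x) + (g x - χ x * g x) := by ring
            simp only
            rw [this]
            exact norm_add_le _ _
      _ = (∫ x in Ω, ‖h x - g x‖) + ∫ x in Ω, ‖g x - χ x * g x‖ :=
          integral_add (hh.sub hgi.integrableOn).norm (hgi.sub hci).integrableOn.norm
      _ ≤ ε := by linarith

/-- Weak convergence of gradients: bounded gradients and pointwise convergence. -/
theorem tendsto_grad {Ω : Set E} (hΩ : IsOpen Ω) (hvol : volume Ω ≠ ⊤) {f : E → E}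
    {fk : ℕ → E → E} {G : E → E →L[ℝ] E} {Gk : ℕ → E → E →L[ℝ] E} {B C : ℝ}
    (hf : HasWeakGrad Ω f G) (hfk : ∀ k, HasWeakGrad Ω (fk k) (Gk k))
    (hm : ∀ k, AEStronglyMeasurable (fk k) (volume.restrict Ω))
    (hGm : AEStronglyMeasurable G (volume.restrict Ω))
    (hGkm : ∀ k, AEStronglyMeasurable (Gk k) (volume.restrict Ω))
    (hb : ∀ k, ∀ x ∈ Ω, ‖fk k x‖ ≤ B) (hGb : ∀ x ∈ Ω, ‖G x‖ ≤ C)
    (hGkb : ∀ k, ∀ x ∈ Ω, ‖Gk k x‖ ≤ C)
    (hlim : ∀ x ∈ Ω, Tendsto (fun k => fk k x) atTop (𝓝 (f x))) {h : E → ℝ}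
    (hh : IntegrableOn h Ω) (v : E) :
    Tendsto (fun k => ∫ x in Ω, h x • Gk k x v) atTop (𝓝 (∫ x in Ω, h x • G x v)) := by
  have hΩm := hΩ.measurableSet
  have haeΩ : ∀ {p : E → Prop}, (∀ x ∈ Ω, p x) → ∀ᵐ x ∂(volume.restrict Ω), p x := by
    intro p hp
    rw [ae_restrict_iff' hΩm]
    exact Eventually.of_forall hp
  by_cases hΩe : Ω = ∅
  · subst hΩe
    simp
  obtain ⟨x₀, hx₀⟩ := nonempty_iff_ne_empty.2 hΩe
  have hC0 : 0 ≤ C := (norm_nonneg _).trans (hGb x₀ hx₀)
  -- integrability of products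
  have hprod : ∀ (ψ : E → ℝ) (H : E → E →L[ℝ] E), IntegrableOn ψ Ω →
      AEStronglyMeasurable H (volume.restrict Ω) → (∀ x ∈ Ω, ‖H x‖ ≤ C) →
      IntegrableOn (fun x => ψ x • H x v) Ω := by
    intro ψ H hψ hHm hHb
    have h2 : IntegrableOn (fun x => C * ‖v‖ * ‖ψ x‖) Ω := hψ.norm.const_mul _
    refine Integrable.mono' h2 ?_ ?_
    · exact hψ.aestronglyMeasurable.smul
        ((ContinuousLinearMap.apply ℝ E v).continuous.comp_aestronglyMeasurable hHm)
    · refine haeΩ fun x hx => ?_
      rw [norm_smul]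
      have h3 : ‖H x v‖ ≤ C * ‖v‖ :=
        ((H x).le_opNorm v).trans (mul_le_mul_of_nonneg_right (hHb x hx) (norm_nonneg _))
      nlinarith [norm_nonneg (ψ x)]
  rw [Metric.tendsto_atTop]
  intro ε hε
  set δ := ε / (4 * (C * ‖v‖ + 1)) with hδ
  have hCv : 0 ≤ C * ‖v‖ := mul_nonneg hC0 (norm_nonneg _)
  have hδ0 : 0 < δ := by positivity
  obtain ⟨φ, hφ, hφc, hφs, hφh⟩ := exists_test_approx hΩ hvol hh hδ0
  have hφi : Integrable φ := hφ.continuous.integrable_of_hasCompactSupport hφc
  -- convergence for the test function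
  have htest : Tendsto (fun k => ∫ x in Ω, φ x • Gk k x v) atTop (𝓝 (∫ x in Ω, φ x • G x v)) := by
    have h1 : ∀ k, ∫ x in Ω, φ x • Gk k x v = - ∫ x in Ω, (fderiv ℝ φ x v) • fk k x := by
      intro k
      rw [hfk k φ hφ hφc hφs v, neg_neg]
    have h2 : ∫ x in Ω, φ x • G x v = - ∫ x in Ω, (fderiv ℝ φ x v) • f x := by
      rw [hf φ hφ hφc hφs v, neg_neg]
    simp only [h1]
    rw [h2]
    apply Tendsto.neg
    have hdφ : Continuous fun x => fderiv ℝ φ x v :=
      (hφ.continuous_fderiv (by simp)).clm_apply continuous_const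
    have hdφc : HasCompactSupport fun x => fderiv ℝ φ x v := (hφc.fderiv ℝ).comp_left (g := fun L : E →L[ℝ] ℝ => L v) rfl
    have hdi : Integrable fun x => fderiv ℝ φ x v := hdφ.integrable_of_hasCompactSupport hdφc
    refine tendsto_integral_of_dominated_convergence (fun x => B * ‖fderiv ℝ φ x v‖) ?_ ?_ ?_ ?_
    · exact fun k => hdφ.aestronglyMeasurable.smul (hm k)
    · exact (hdi.norm.const_mul _).integrableOn
    · intro k
      refine haeΩ fun x hx => ?_
      rw [norm_smul, mul_comm]
      exact mul_le_mul_of_nonneg_right (hb k x hx) (norm_nonneg _)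
    · refine haeΩ fun x hx => ?_
      exact (hlim x hx).const_smul _
  rw [Metric.tendsto_atTop] at htest
  obtain ⟨k₀, hk₀⟩ := htest (ε / 4) (by positivity)
  refine ⟨k₀, fun k hk => ?_⟩
  have herr : ∀ (H : E → E →L[ℝ] E), AEStronglyMeasurable H (volume.restrict Ω) →
      (∀ x ∈ Ω, ‖H x‖ ≤ C) → ‖(∫ x in Ω, h x • H x v) - ∫ x in Ω, φ x • H x v‖ ≤ ε / 4 := by
    intro H hHm hHb
    rw [← integral_sub (hprod h H hh hHm hHb) (hprod φ H hφi.integrableOn hHm hHb)]
    calc ‖∫ x in Ω, (h x • H x v - φ x • H x v)‖ ≤ ∫ x in Ω, ‖h x • H x v - φ x • H x v‖ :=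
          norm_integral_le_integral_norm _
      _ ≤ ∫ x in Ω, C * ‖v‖ * ‖h x - φ x‖ := by
          apply integral_mono_of_nonneg
          · exact Eventually.of_forall fun x => norm_nonneg _
          · exact (hh.sub hφi.integrableOn).norm.const_mul _
          · refine haeΩ fun x hx => ?_
            show ‖h x • H x v - φ x • H x v‖ ≤ C * ‖v‖ * ‖h x - φ x‖
            rw [← sub_smul, norm_smul]
            have h3 : ‖H x v‖ ≤ C * ‖v‖ :=
              ((H x).le_opNorm v).trans (mul_le_mul_of_nonneg_right (hHb x hx) (norm_nonneg _))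
            nlinarith [norm_nonneg (h x - φ x)]
      _ = C * ‖v‖ * ∫ x in Ω, ‖h x - φ x‖ := integral_const_mul _ _
      _ ≤ C * ‖v‖ * δ := mul_le_mul_of_nonneg_left hφh hCv
      _ ≤ ε / 4 := by
          rw [hδ, mul_div_assoc', div_le_div_iff₀ (by positivity) (by positivity)]
          nlinarith
  have h1 := herr (Gk k) (hGkm k) (hGkb k)
  have h2 := herr G hGm hGb
  have h3 := hk₀ k hk
  rw [dist_eq_norm] at h3 ⊢
  set a := ∫ x in Ω, h x • Gk k x v with ha
  set b := ∫ x in Ω, φ x • Gk k x v with hb'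
  set c := ∫ x in Ω, h x • G x v with hc'
  set d := ∫ x in Ω, φ x • G x v with hd'
  have h4 : a - c = (a - b) + (b - d) - (c - d) := by abel
  rw [h4]
  calc _ ≤ ‖(a - b) + (b - d)‖ + ‖c - d‖ := norm_sub_le _ _
    _ ≤ ‖a - b‖ + ‖b - d‖ + ‖c - d‖ := by
        gcongr
        exact norm_add_le _ _
    _ < ε := by linarith

end Pool.Agent.K6.H31.WS
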